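import Pool.Agent.Lib.MP_570bef_ntV.VM.Four

/-!
# From integer vectors to a finite group
-/

set_option linter.unusedSectionVars false

namespace Pool.Agent.Lib.MP_570bef_ntV.VM

open Finset

variable {τ α : Type*} {d : ℕ}

/-- reduction modulo `M` -/
def red (M : ℕ) (v : Fin d → ℤ) : Fin d → ZMod M := fun j => ((v j : ℤ) : ZMod M)

theorem red_add (M : ℕ) (v w : Fin d → ℤ) : red M (v + w) = red M v + red M w := by
  funext j
  simp [red]

theorem red_sub (M : ℕ) (v w : Fin d → ℤ) : red M (v - w) = red M v - red M w := by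
  funext j
  simp [red]

theorem red_two (M : ℕ) (hM : Odd M) (v : Fin d → ZMod M) (h : 2 • v = 0) : v = 0 := by
  funext j
  have h1 : (2 : ZMod M) * v j = 0 := by
    have := congrFun h j
    simpa [two_nsmul, two_mul] using this
  have h2 : IsUnit (2 : ZMod M) := by
    have h3 : IsUnit ((2 : ℕ) : ZMod M) := (ZMod.isUnit_iff_coprime 2 M).2 (Nat.coprime_two_left.2 hM)
    exact_mod_cast h3
  exact (h2.mul_right_eq_zero).1 h1

theorem exists_M (D : Finset (Fin d → ℤ)) : ∃ M : ℕ, Odd M ∧ ∀ v ∈ D, red M v = 0 → v = 0 := by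
  refine ⟨2 * (∑ v ∈ D, ∑ j, (v j).natAbs) + 1, ⟨_, rfl⟩, fun v hv h => ?_⟩
  funext j
  have h1 := congrFun h j
  simp only [red, Pi.zero_apply] at h1
  rw [ZMod.intCast_zmod_eq_zero_iff_dvd] at h1
  have h2 : (v j).natAbs ≤ ∑ j, (v j).natAbs := single_le_sum (f := fun j => (v j).natAbs) (fun _ _ => Nat.zero_le _) (mem_univ j)
  have h3 : ∑ j, (v j).natAbs ≤ ∑ v ∈ D, ∑ j, (v j).natAbs :=
    single_le_sum (f := fun v : Fin d → ℤ => ∑ j, (v j).natAbs) (fun _ _ => Nat.zero_le _) hv
  have h4 : (v j).natAbs < 2 * (∑ v ∈ D, ∑ j, (v j).natAbs) + 1 := by omega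
  have h5 := Int.eq_zero_of_abs_lt_dvd h1 (by
    rw [Int.abs_eq_natAbs]
    exact_mod_cast h4)
  exact h5

theorem W4_red (M : ℕ) (T1 T2 : Finset τ) (F : τ → Fin d → ℤ) (A : Finset α) (G : α → Fin d → ℤ)
    (h : ∀ x ∈ T1, ∀ y ∈ T2, ∀ u ∈ A, ∀ v ∈ A, red M (F x + G u - (F y + G v)) = 0 →
      F x + G u - (F y + G v) = 0) :
    W4 T1 T2 F A G = W4 T1 T2 (fun x => red M (F x)) A (fun u => red M (G u)) := by
  unfold W4
  congr 1
  ext z
  simp only [mem_filter, mem_product]
  refine and_congr_right fun hz => ?_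
  rw [← red_add, ← red_add]
  constructor
  · intro h1
    rw [h1]
  · intro h1
    refine sub_eq_zero.1 (h _ hz.1.1 _ hz.1.2 _ hz.2.1 _ hz.2.2 ?_)
    rw [red_sub, h1, sub_self]

/-- the moment curve modulo `M` -/
def nu (d M : ℕ) (z : ℤ) : Fin d → ZMod M := fun j => ((z ^ ((j : ℕ) + 1) : ℤ) : ZMod M)

theorem red_vs (M : ℕ) {ι : Type*} [Fintype ι] (x : ι → ℤ) : red M (vs d x) = ∑ i, nu d M (x i) := by
  funext j
  simp [red, vs, nu, Finset.sum_apply]

/-- a good modulus for all differences -/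
theorem exists_M4 (T1 T2 : Finset τ) (F : τ → Fin d → ℤ) (A : Finset α) (G : α → Fin d → ℤ) :
    ∃ M : ℕ, Odd M ∧ ∀ x ∈ T1, ∀ y ∈ T2, ∀ u ∈ A, ∀ v ∈ A, red M (F x + G u - (F y + G v)) = 0 →
      F x + G u - (F y + G v) = 0 := by
  classical
  obtain ⟨M, hM, h⟩ := exists_M (((T1 ×ˢ T2) ×ˢ (A ×ˢ A)).image
    (fun z => F z.1.1 + G z.2.1 - (F z.1.2 + G z.2.2)))
  refine ⟨M, hM, fun x hx y hy u hu v hv => h _ (mem_image.2 ⟨((x, y), (u, v)), ?_, rfl⟩)⟩
  simp only [mem_product]
  exact ⟨⟨hx, hy⟩, hu, hv⟩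

theorem W_split (s p : ℕ) (hs : 1 ≤ s) (hp : 1 ≤ p) (T : Finset τ) (F : τ → Fin d → ℤ) (S : Finset ℤ) :
    (W T F (tup s S) (vs d) : ℝ) ≤ (p : ℝ) ^ (2 * s - 1) *
      ∑ a ∈ range p, (W T F (tup s (S.filter (fun x => x % (p : ℤ) = (a : ℤ)))) (vs d) : ℝ) := by
  obtain ⟨M, hM, h⟩ := exists_M4 T T F (tup s S) (vs d)
  have hM0 : NeZero M := ⟨by
    rintro rfl
    simp at hM⟩
  have h1 : W T F (tup s S) (vs d) =
      W T (fun x => red M (F x)) (tup s S) (fun x => ∑ i, nu d M (x i)) := by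
    have := W4_red M T T F (tup s S) (vs d) h
    simp only [red_vs] at this
    exact this
  have h2 : ∀ a : ℕ, W T F (tup s (S.filter (fun x => x % (p : ℤ) = (a : ℤ)))) (vs d) =
      W T (fun x => red M (F x)) (tup s (S.filter (fun x => x % (p : ℤ) = (a : ℤ)))) (fun x => ∑ i, nu d M (x i)) := by
    intro a
    have hsub : tup s (S.filter (fun x => x % (p : ℤ) = (a : ℤ))) ⊆ tup s S := by
      intro x hx
      rw [tup, Fintype.mem_piFinset] at hx ⊢
      exact fun i => (mem_filter.1 (hx i)).1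
    have := W4_red M T T F (tup s (S.filter (fun x => x % (p : ℤ) = (a : ℤ)))) (vs d)
      (fun x hx y hy u hu v hv => h x hx y hy u (hsub hu) v (hsub hv))
    simp only [red_vs] at this
    exact this
  rw [h1]
  simp only [h2]
  exact W_split_fin s p hs hp T _ S (nu d M)

theorem coinc (r s : ℕ) (S : Finset ℤ) (i j : Fin r) (hij : i ≠ j) (K : ℝ) (hK : 0 ≤ K) :
    K * (W4 ((tup r S).filter (fun x => x i = x j)) (tup r S) (vs d) (tup s S) (vs d) : ℝ) ≤
      (W (tup r S) (vs d) (tup s S) (vs d) : ℝ) +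
      K ^ (r + s) * √(W (tup r S) (vs d) (tup s S) (vs d) : ℝ) := by
  obtain ⟨M, hM, h⟩ := exists_M4 (tup r S) (tup r S) (vs d) (tup s S) (vs d)
  have hM0 : NeZero M := ⟨by
    rintro rfl
    simp at hM⟩
  have h1 : W (tup r S) (vs d) (tup s S) (vs d) =
      W (tup r S) (fun x => ∑ i, nu d M (x i)) (tup s S) (fun x => ∑ i, nu d M (x i)) := by
    have := W4_red M (tup r S) (tup r S) (vs d) (tup s S) (vs d) h
    simp only [red_vs] at this
    exact this
  have h2 : W4 ((tup r S).filter (fun x => x i = x j)) (tup r S) (vs d) (tup s S) (vs d) =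
      W4 ((tup r S).filter (fun x => x i = x j)) (tup r S) (fun x => ∑ i, nu d M (x i)) (tup s S)
        (fun x => ∑ i, nu d M (x i)) := by
    have := W4_red M ((tup r S).filter (fun x => x i = x j)) (tup r S) (vs d) (tup s S) (vs d)
      (fun x hx y hy u hu v hv => h x (mem_filter.1 hx).1 y hy u hu v hv)
    simp only [red_vs] at this
    exact this
  rw [h1, h2]
  exact coinc_fin r s S (nu d M) (red_two M hM) i j hij K hK

/-- differences: the number of representations of `h` is at most that of `0` -/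
theorem triangle {V : Type*} [AddCommGroup V] [DecidableEq V] (A : Finset α) (G : α → V) (h : V) :
    ((A ×ˢ A).filter (fun z => G z.2 - G z.1 = h)).card ≤ ((A ×ˢ A).filter (fun z => G z.1 = G z.2)).card := by
  classical
  set n : V → ℕ := fun w => (A.filter (fun u => G u = w)).card with hn
  have e1 : ((A ×ˢ A).filter (fun z => G z.2 - G z.1 = h)).card = ∑ w ∈ A.image G, n w * n (w + h) := by
    rw [card_filter, sum_product]
    have e2 : ∀ u ∈ A, ∑ v ∈ A, (if G (u, v).2 - G (u, v).1 = h then 1 else 0) = n (G u + h) := by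
      intro u _
      rw [← card_filter]
      congr 1
      ext v
      simp only [mem_filter]
      refine and_congr_right fun _ => ?_
      rw [sub_eq_iff_eq_add, add_comm]
    rw [sum_congr rfl e2, ← sum_fiberwise_of_maps_to (t := A.image G) (g := G) (fun u hu => mem_image_of_mem G hu)]
    refine sum_congr rfl fun w _ => ?_
    have e3 : ∀ u ∈ A.filter (fun u => G u = w), n (G u + h) = n (w + h) := by
      intro u hu
      rw [(mem_filter.1 hu).2]
    rw [sum_congr rfl e3, sum_const, smul_eq_mul]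
  have e4 : ((A ×ˢ A).filter (fun z => G z.1 = G z.2)).card = ∑ w ∈ A.image G, n w * n w := by
    rw [card_filter, sum_product]
    have e2 : ∀ u ∈ A, ∑ v ∈ A, (if G (u, v).1 = G (u, v).2 then 1 else 0) = n (G u) := by
      intro u _
      rw [← card_filter]
      congr 1
      ext v
      simp only [mem_filter]
      exact and_congr_right fun _ => eq_comm
    rw [sum_congr rfl e2, ← sum_fiberwise_of_maps_to (t := A.image G) (g := G) (fun u hu => mem_image_of_mem G hu)]
    refine sum_congr rfl fun w _ => ?_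
    have e3 : ∀ u ∈ A.filter (fun u => G u = w), n (G u) = n w := by
      intro u hu
      rw [(mem_filter.1 hu).2]
    rw [sum_congr rfl e3, sum_const, smul_eq_mul]
  rw [e1, e4]
  have e5 : ∑ w ∈ A.image G, n (w + h) * n (w + h) ≤ ∑ w ∈ A.image G, n w * n w := by
    have e6 : ∑ w ∈ A.image G, n (w + h) * n (w + h) = ∑ w ∈ (A.image G).image (· + h), n w * n w :=
      (sum_image (s := A.image G) (g := fun x => x + h) (f := fun w => n w * n w)
        (fun a _ b _ hab => add_right_cancel hab)).symm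
    rw [e6, ← sum_filter_add_sum_filter_not ((A.image G).image (· + h)) (fun w => w ∈ A.image G)]
    have e7 : ∑ w ∈ ((A.image G).image (· + h)).filter (fun w => ¬ w ∈ A.image G), n w * n w = 0 := by
      refine sum_eq_zero fun w hw => ?_
      have hw' := (mem_filter.1 hw).2
      have : n w = 0 := by
        rw [hn]
        simp only [card_eq_zero]
        refine filter_eq_empty_iff.2 fun u hu hGu => hw' (mem_image.2 ⟨u, hu, hGu⟩)
      rw [this, Nat.zero_mul]
    rw [e7, Nat.add_zero]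
    exact sum_le_sum_of_subset (fun w hw => (mem_filter.1 hw).2)
  have e8 : ∀ a b : ℕ, 2 * (a * b) ≤ a * a + b * b := by
    intro a b
    nlinarith [sq_nonneg ((a : ℤ) - b), mul_self_nonneg ((a : ℤ) - b)]
  have e9 : 2 * ∑ w ∈ A.image G, n w * n (w + h) ≤ ∑ w ∈ A.image G, n w * n w + ∑ w ∈ A.image G, n (w + h) * n (w + h) := by
    rw [mul_sum, ← sum_add_distrib]
    exact sum_le_sum fun w _ => e8 _ _
  omega

end Pool.Agent.Lib.MP_570bef_ntV.VM
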