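import Pool.Agent.Lib.MP_570bef_ntV.VM.Rec

/-!
# Vinogradov's mean value theorem from the recursion
-/

namespace VM

open Finset

/-- the statement of the recursion -/
def RecStep (r : ℕ) : Prop := ∀ s : ℕ, ∃ C : ℝ, 1 ≤ C ∧ ∀ N : ℕ, 1 ≤ N → ∃ p : ℕ, 1 ≤ p ∧
    (N : ℝ) ≤ (p : ℝ) ^ r ∧ (p : ℝ) ^ r ≤ C * N ∧
    (VM.JN (r + s) r N : ℝ) ≤ C * ((N : ℝ) ^ r * (p : ℝ) ^ (2 * s + r * (r - 1) / 2) * (VM.JN s r (N / p + 1) : ℝ))

theorem JN_zero (r Z : ℕ) : VM.JN 0 r Z ≤ 1 := by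
  unfold VM.JN
  refine (card_filter_le _ _).trans (le_of_eq ?_)
  rw [card_univ]
  simp

theorem mean_of_rec (r t : ℕ) (hr : 1 ≤ r) (hrec : RecStep r) : ∃ C : ℝ, 1 ≤ C ∧ ∀ Z : ℕ, 1 ≤ Z →
    (VM.JN (r * t) r Z : ℝ) ≤ C * (Z : ℝ) ^ (2 * r * t - r * (r + 1) / 2 +
      (r * (r + 1) / 2) * (1 - 1 / (r : ℝ)) ^ t : ℝ) := by
  induction t with
  | zero =>
    refine ⟨1, le_refl _, fun Z hZ => ?_⟩
    rw [Nat.mul_zero]
    have h1 : ((VM.JN 0 r Z : ℕ) : ℝ) ≤ 1 := by exact_mod_cast JN_zero r Z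
    refine h1.trans (le_of_eq ?_)
    have e : (2 * (r : ℝ) * ((0 : ℕ) : ℝ) - r * (r + 1) / 2 + (r * (r + 1) / 2) * (1 - 1 / (r : ℝ)) ^ 0) = 0 := by
      simp
    rw [e, Real.rpow_zero, mul_one]
  | succ t ih =>
    obtain ⟨C0, hC0, h0⟩ := ih
    obtain ⟨C1, hC1, h1⟩ := hrec (r * t)
    have hr' : (1 : ℝ) ≤ (r : ℝ) := by exact_mod_cast hr
    have hr0 : (0 : ℝ) < (r : ℝ) := by linarith
    set E : ℝ := 2 * r * t - r * (r + 1) / 2 + (r * (r + 1) / 2) * (1 - 1 / (r : ℝ)) ^ t with hE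
    have hE0 : 0 ≤ E := by
      have hb : 1 + (t : ℝ) * (-(1 / (r : ℝ))) ≤ (1 + -(1 / (r : ℝ))) ^ t := by
        refine one_add_mul_le_pow ?_ t
        have : 1 / (r : ℝ) ≤ 1 := (div_le_one hr0).2 hr'
        linarith
      have hb' : (r * (r + 1) / 2 : ℝ) * (1 + (t : ℝ) * (-(1 / (r : ℝ)))) ≤ (r * (r + 1) / 2) * (1 - 1 / (r : ℝ)) ^ t := by
        refine mul_le_mul_of_nonneg_left ?_ (by positivity)
        rw [sub_eq_add_neg]
        exact hb
      have e : (r * (r + 1) / 2 : ℝ) * (1 + (t : ℝ) * (-(1 / (r : ℝ)))) = r * (r + 1) / 2 - (r + 1) * t / 2 := by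
        field_simp
        ring
      rw [e] at hb'
      have ht : (0 : ℝ) ≤ (t : ℝ) := by positivity
      have h2 : ((r : ℝ) + 1) * t / 2 ≤ 2 * r * t := by nlinarith
      linarith
    set m : ℕ := 2 * (r * t) + r * (r - 1) / 2 with hm
    have hmr : (m : ℝ) / r = 2 * t + (r - 1) / 2 := by
      have h2 : 2 * (r * (r - 1) / 2) = r * (r - 1) := by
        refine Nat.mul_div_cancel' ?_
        exact (Nat.even_mul_pred_self r).two_dvd
      have h3 : (2 : ℝ) * ((r * (r - 1) / 2 : ℕ) : ℝ) = r * (r - 1) := by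
        have h4 : ((2 * (r * (r - 1) / 2) : ℕ) : ℝ) = ((r * (r - 1) : ℕ) : ℝ) := by rw [h2]
        rw [Nat.cast_mul, Nat.cast_mul, Nat.cast_sub hr] at h4
        simpa using h4
      rw [hm, Nat.cast_add, Nat.cast_mul, Nat.cast_mul, div_eq_iff hr0.ne']
      push_cast
      nlinarith
    refine ⟨C1 * C1 ^ ((m : ℝ) / r) * C0 * 2 ^ E, ?_, fun Z hZ => ?_⟩
    · have h2 : 1 ≤ C1 ^ ((m : ℝ) / r) := Real.one_le_rpow hC1 (by positivity)
      have h3 : 1 ≤ (2 : ℝ) ^ E := Real.one_le_rpow (by norm_num) hE0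
      exact one_le_mul_of_one_le_of_one_le (one_le_mul_of_one_le_of_one_le
        (one_le_mul_of_one_le_of_one_le hC1 h2) hC0) h3
    obtain ⟨p, hp, hp1, hp2, hp3⟩ := h1 Z hZ
    set z : ℝ := (Z : ℝ) with hz
    set P : ℝ := (p : ℝ) with hP
    have hz1 : 1 ≤ z := by rw [hz]; exact_mod_cast hZ
    have hz0 : 0 < z := by linarith
    have hP1 : 1 ≤ P := by rw [hP]; exact_mod_cast hp
    have hP0 : 0 < P := by linarith
    have hrt : r * (t + 1) = r + r * t := by ring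
    rw [hrt]
    refine hp3.trans ?_
    have hY := h0 (Z / p + 1) (Nat.succ_pos _)
    have hroot : z ^ (1 / (r : ℝ)) ≤ P := by
      have h2 : z ^ (1 / (r : ℝ)) ≤ (P ^ r) ^ (1 / (r : ℝ)) := Real.rpow_le_rpow hz0.le hp1 (by positivity)
      rw [← Real.rpow_natCast P r, ← Real.rpow_mul hP0.le, mul_one_div_cancel hr0.ne', Real.rpow_one] at h2
      exact h2
    have hYle : (((Z / p + 1 : ℕ)) : ℝ) ≤ 2 * z ^ (1 - 1 / (r : ℝ)) := by
      have h2 : ((Z / p : ℕ) : ℝ) ≤ z / P := Nat.cast_div_le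
      have h3 : z / P ≤ z ^ (1 - 1 / (r : ℝ)) := by
        rw [Real.rpow_sub hz0, Real.rpow_one]
        exact div_le_div_of_nonneg_left hz0.le (Real.rpow_pos_of_pos hz0 _) hroot
      have h4 : 1 ≤ z ^ (1 - 1 / (r : ℝ)) := Real.one_le_rpow hz1 (by
        have : 1 / (r : ℝ) ≤ 1 := (div_le_one hr0).2 hr'
        linarith)
      push_cast
      linarith
    have hJ : (VM.JN (r * t) r (Z / p + 1) : ℝ) ≤ C0 * (2 ^ E * z ^ ((1 - 1 / (r : ℝ)) * E)) := by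
      refine hY.trans (mul_le_mul_of_nonneg_left ?_ (by linarith))
      calc (((Z / p + 1 : ℕ)) : ℝ) ^ E ≤ (2 * z ^ (1 - 1 / (r : ℝ))) ^ E :=
            Real.rpow_le_rpow (by positivity) hYle hE0
        _ = 2 ^ E * z ^ ((1 - 1 / (r : ℝ)) * E) := by
            rw [Real.mul_rpow (by norm_num) (Real.rpow_nonneg hz0.le _), ← Real.rpow_mul hz0.le]
    have hPm : P ^ m ≤ C1 ^ ((m : ℝ) / r) * z ^ ((m : ℝ) / r) := by
      have h2 : P ^ m = (P ^ r) ^ ((m : ℝ) / r) := by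
        rw [← Real.rpow_natCast P r, ← Real.rpow_mul hP0.le, mul_div_cancel₀ _ hr0.ne', Real.rpow_natCast]
      rw [h2, ← Real.mul_rpow (by linarith) hz0.le]
      exact Real.rpow_le_rpow (by positivity) hp2 (by positivity)
    have hzr : z ^ r = z ^ (r : ℝ) := (Real.rpow_natCast z r).symm
    calc C1 * (z ^ r * P ^ m * (VM.JN (r * t) r (Z / p + 1) : ℝ))
        ≤ C1 * (z ^ r * (C1 ^ ((m : ℝ) / r) * z ^ ((m : ℝ) / r)) * (C0 * (2 ^ E * z ^ ((1 - 1 / (r : ℝ)) * E)))) := by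
          refine mul_le_mul_of_nonneg_left ?_ (by linarith)
          refine mul_le_mul (mul_le_mul_of_nonneg_left hPm (by positivity)) hJ (by positivity) ?_
          have : 0 ≤ C1 := by linarith
          positivity
      _ = C1 * C1 ^ ((m : ℝ) / r) * C0 * 2 ^ E * (z ^ r * z ^ ((m : ℝ) / r) * z ^ ((1 - 1 / (r : ℝ)) * E)) := by ring
      _ = _ := by
          congr 1
          rw [hzr, ← Real.rpow_add hz0, ← Real.rpow_add hz0]
          congr 1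
          rw [hmr, hE, pow_succ]
          push_cast
          field_simp
          ring

/-- **Vinogradov's mean value theorem** (with the exponent of Linnik and Karatsuba). -/
theorem J_le (r t : ℕ) (hr : 1 ≤ r) : ∃ C : ℝ, 1 ≤ C ∧ ∀ Z : ℕ, 1 ≤ Z →
    (VM.JN (r * t) r Z : ℝ) ≤ C * (Z : ℝ) ^ (2 * r * t - r * (r + 1) / 2 +
      (r * (r + 1) / 2) * (1 - 1 / (r : ℝ)) ^ t : ℝ) :=
  mean_of_rec r t hr (fun s => rec_step r s hr)

end VM
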