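import Mathlib

/-!
The number `VM.JN s r Z` of solutions of the Vinogradov system of degree `r`
in `2 s` variables from `0, 1, …, Z - 1`.
-/

namespace VM

/-- Number of solutions of `∑ x_i ^ j = ∑ y_i ^ j`, `1 ≤ j ≤ r`, with `s` natural
numbers `x_i < Z` and `s` natural numbers `y_i < Z`. -/
def JN (s r Z : ℕ) : ℕ :=
  ((Finset.univ : Finset ((Fin s → Fin Z) × (Fin s → Fin Z))).filter
    (fun q : (Fin s → Fin Z) × (Fin s → Fin Z) =>
      ∀ j ∈ Finset.Icc (1 : ℕ) r, (∑ i, ((q.1 i : ℕ)) ^ j : ℕ) = ∑ i, ((q.2 i : ℕ)) ^ j)).card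

end VM
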