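import Mathlib

/-!
# Boundedly many primes which separate the coordinates

`primes`: for large `N` there are at most `C` primes `p > r` with `N ≤ p^r ≤ C N` such that for every two vectors with
distinct coordinates in `[1, N]` one of the primes separates the coordinates of both.
-/

set_option autoImplicit false

namespace VM

open Finset

theorem primes (r : ℕ) (hr : 1 ≤ r) : ∃ C N0 : ℕ, ∀ N : ℕ, N0 ≤ N → ∃ P : Finset ℕ, P.card ≤ C ∧
    (∀ p ∈ P, p.Prime ∧ r < p ∧ N ≤ p ^ r ∧ p ^ r ≤ C * N) ∧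
    ∀ x y : Fin r → ℤ, (∀ i, 1 ≤ x i ∧ x i ≤ N) → (∀ i, 1 ≤ y i ∧ y i ≤ N) → Function.Injective x →
      Function.Injective y → ∃ p ∈ P, (∀ i k, i ≠ k → ¬ ((p : ℤ) ∣ x i - x k)) ∧
        (∀ i k, i ≠ k → ¬ ((p : ℤ) ∣ y i - y k)) := by
  classical
  have hb : ∀ n : ℕ, ∃ p : ℕ, n ≠ 0 → p.Prime ∧ n < p ∧ p ≤ 2 * n := fun n => by
    by_cases h : n = 0
    · exact ⟨0, fun h' => absurd h h'⟩
    · obtain ⟨p, hp⟩ := Nat.exists_prime_lt_and_le_two_mul n h
      exact ⟨p, fun _ => hp⟩
  choose nxt hnxt using hb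
  set m := 2 * r ^ 3 with hm
  refine ⟨m + (2 ^ (m + 1)) ^ r, r ^ r + 2, fun N hN => ?_⟩
  -- the least `n` with `N ≤ n ^ r`
  have hex : ∃ n : ℕ, N ≤ n ^ r := ⟨N, Nat.le_self_pow (by omega) N⟩
  set n0 := Nat.find hex with hn0
  have h1 : N ≤ n0 ^ r := Nat.find_spec hex
  have h2 : ∀ n, n < n0 → n ^ r < N := fun n hn => not_le.1 (Nat.find_min hex hn)
  have h3 : 2 ≤ n0 := by
    by_contra h
    have h4 : n0 ^ r ≤ 1 ^ r := Nat.pow_le_pow_left (by omega) r
    rw [one_pow] at h4
    omega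
  have h4 : r ≤ n0 := by
    by_contra h
    have h5 : n0 ^ r ≤ r ^ r := Nat.pow_le_pow_left (by omega) r
    omega
  have h5 : n0 ^ r ≤ 2 ^ r * N := by
    have h6 : n0 ≤ 2 * (n0 - 1) := by omega
    calc n0 ^ r ≤ (2 * (n0 - 1)) ^ r := Nat.pow_le_pow_left h6 r
      _ = 2 ^ r * (n0 - 1) ^ r := mul_pow _ _ _
      _ ≤ 2 ^ r * N := Nat.mul_le_mul_left _ (h2 (n0 - 1) (by omega)).le
  -- the sequence of the primes
  let q : ℕ → ℕ := fun i => Nat.rec n0 (fun _ p => nxt p) i
  have hq0 : q 0 = n0 := rfl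
  have hqs : ∀ i, q (i + 1) = nxt (q i) := fun i => rfl
  have hqpos : ∀ i, n0 ≤ q i := by
    intro i
    induction i with
    | zero => exact le_rfl
    | succ i ih =>
      rw [hqs]
      have := (hnxt (q i) (by omega)).2.1
      omega
  have hqlt : ∀ i, q i < q (i + 1) := fun i => by
    rw [hqs]
    have := hqpos i
    exact (hnxt (q i) (by omega)).2.1
  have hqmono : StrictMono q := strictMono_nat_of_lt_succ hqlt
  have hqp : ∀ i, (q (i + 1)).Prime := fun i => by
    rw [hqs]
    have := hqpos i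
    exact (hnxt (q i) (by omega)).1
  have hqle : ∀ i, q i ≤ 2 ^ i * n0 := by
    intro i
    induction i with
    | zero => rw [hq0, pow_zero, one_mul]
    | succ i ih =>
      rw [hqs]
      have h6 := hqpos i
      have h7 := (hnxt (q i) (by omega)).2.2
      calc nxt (q i) ≤ 2 * q i := h7
        _ ≤ 2 * (2 ^ i * n0) := Nat.mul_le_mul_left _ ih
        _ = 2 ^ (i + 1) * n0 := by ring
  refine ⟨(range m).image fun i => q (i + 1), ?_, ?_, ?_⟩
  · refine Finset.card_image_le.trans ?_
    rw [card_range]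
    omega
  · intro p hp
    rw [mem_image] at hp
    obtain ⟨i, hi, rfl⟩ := hp
    rw [mem_range] at hi
    have h6 := hqpos i
    have h7 := hqlt i
    refine ⟨hqp i, by omega, h1.trans (Nat.pow_le_pow_left (by omega) r), ?_⟩
    calc q (i + 1) ^ r ≤ (2 ^ (i + 1) * n0) ^ r := Nat.pow_le_pow_left (hqle (i + 1)) r
      _ = (2 ^ (i + 1)) ^ r * n0 ^ r := mul_pow _ _ _
      _ ≤ (2 ^ m) ^ r * (2 ^ r * N) := Nat.mul_le_mul (Nat.pow_le_pow_left
          (Nat.pow_le_pow_right (by norm_num) (by omega)) r) h5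
      _ = (2 ^ (m + 1)) ^ r * N := by rw [pow_succ, mul_pow, mul_assoc]
      _ ≤ (m + (2 ^ (m + 1)) ^ r) * N := Nat.mul_le_mul_right _ (by omega)
  · intro x y hx hy hxi hyi
    by_contra hcon
    push Not at hcon
    -- the product of the differences
    set Δ : ℤ := ∏ i, ∏ k ∈ univ.erase i, ((x i - x k) * (y i - y k)) with hΔ
    have hΔ0 : Δ ≠ 0 := by
      rw [hΔ, Finset.prod_ne_zero_iff]
      intro i _
      rw [Finset.prod_ne_zero_iff]
      intro k hk
      have hik : i ≠ k := (Finset.ne_of_mem_erase hk).symm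
      exact mul_ne_zero (sub_ne_zero.2 fun h => hik (hxi h)) (sub_ne_zero.2 fun h => hik (hyi h))
    have hΔle : Δ.natAbs ≤ N ^ (2 * r * (r - 1)) := by
      have hna : ∀ {ι : Type} (s : Finset ι) (g : ι → ℤ), (∏ i ∈ s, g i).natAbs = ∏ i ∈ s, (g i).natAbs :=
        fun s g => map_prod Int.natAbsHom g s
      rw [hΔ, hna]
      have h6 : ∀ i : Fin r, (∏ k ∈ univ.erase i, ((x i - x k) * (y i - y k))).natAbs ≤
          N ^ (2 * (r - 1)) := by
        intro i
        rw [hna]
        refine (Finset.prod_le_prod' (g := fun _ => N ^ 2) fun k _ => ?_).trans ?_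
        · rw [Int.natAbs_mul, pow_two]
          have a1 := hx i
          have a2 := hx k
          have a3 := hy i
          have a4 := hy k
          exact Nat.mul_le_mul (by omega) (by omega)
        · rw [Finset.prod_const, Finset.card_erase_of_mem (mem_univ i), card_univ, Fintype.card_fin,
            ← pow_mul]
      refine (Finset.prod_le_prod' fun i _ => h6 i).trans ?_
      rw [Finset.prod_const, card_univ, Fintype.card_fin, ← pow_mul]
      refine le_of_eq ?_
      congr 1
      ring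
    have hdvd : ∏ p ∈ (range m).image (fun i => q (i + 1)), p ∣ Δ.natAbs := by
      refine Finset.prod_primes_dvd _ (fun p hp => ?_) (fun p hp => ?_)
      · rw [mem_image] at hp
        obtain ⟨i, -, rfl⟩ := hp
        exact (hqp i).prime
      · have h6 : (p : ℤ) ∣ Δ := by
          by_cases h7 : ∀ i k, i ≠ k → ¬ ((p : ℤ) ∣ x i - x k)
          · obtain ⟨i, k, hik, h8⟩ := hcon p hp h7
            refine (dvd_mul_of_dvd_right h8 (x i - x k)).trans ?_
            exact (Finset.dvd_prod_of_mem (fun k => (x i - x k) * (y i - y k))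
              (Finset.mem_erase.2 ⟨hik.symm, mem_univ k⟩)).trans
              (Finset.dvd_prod_of_mem (fun i => ∏ k ∈ univ.erase i, ((x i - x k) * (y i - y k))) (mem_univ i))
          · push Not at h7
            obtain ⟨i, k, hik, h8⟩ := h7
            refine (dvd_mul_of_dvd_left h8 (y i - y k)).trans ?_
            exact (Finset.dvd_prod_of_mem (fun k => (x i - x k) * (y i - y k))
              (Finset.mem_erase.2 ⟨hik.symm, mem_univ k⟩)).trans
              (Finset.dvd_prod_of_mem (fun i => ∏ k ∈ univ.erase i, ((x i - x k) * (y i - y k))) (mem_univ i))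
        exact Int.natCast_dvd.1 h6
    have hle := Nat.le_of_dvd (Int.natAbs_pos.2 hΔ0) hdvd
    rw [Finset.prod_image (fun i _ j _ h => by
      have h' := hqmono.injective (a₁ := i + 1) (a₂ := j + 1) h
      omega)] at hle
    have h6 : n0 ^ m ≤ ∏ i ∈ range m, q (i + 1) := by
      rw [← card_range m, ← Finset.prod_const, card_range]
      exact Finset.prod_le_prod' fun i _ => hqpos (i + 1)
    have h7 : N ^ (2 * r ^ 2) ≤ n0 ^ m := by
      calc N ^ (2 * r ^ 2) ≤ (n0 ^ r) ^ (2 * r ^ 2) := Nat.pow_le_pow_left h1 _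
        _ = n0 ^ m := by rw [← pow_mul, hm]; congr 1; ring
    have h8 : N ^ (2 * r * (r - 1)) < N ^ (2 * r ^ 2) := by
      refine Nat.pow_lt_pow_right (by omega) ?_
      obtain ⟨r', rfl⟩ := Nat.exists_eq_add_of_le hr
      rw [Nat.add_sub_cancel_left]
      nlinarith
    omega

end VM
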