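import Mathlib

/-!
# Linnik's lemma

`linnik`: the number of `x_1, …, x_r` in a set `S` of representatives modulo `p^r`, distinct modulo the prime
`p > r`, with `x_1^j + ⋯ + x_r^j ≡ h_j mod p^j` for `j = 1, …, r` is at most `r^r p^(r(r-1)/2)`.
-/

set_option autoImplicit false

namespace VM

open Finset

/-- The elementary symmetric functions are determined by the power sums. -/
theorem esymm_eq {R : Type*} [CommRing R] {r : ℕ} (hu : ∀ j : ℕ, 1 ≤ j → j ≤ r → IsUnit (j : R))
    (x y : Fin r → R) (h : ∀ j : ℕ, 1 ≤ j → j ≤ r → ∑ i, x i ^ j = ∑ i, y i ^ j) (n : ℕ) (hn : n ≤ r) :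
    MvPolynomial.aeval x (MvPolynomial.esymm (Fin r) ℤ n) =
      MvPolynomial.aeval y (MvPolynomial.esymm (Fin r) ℤ n) := by
  induction n using Nat.strong_induction_on with
  | _ n ih =>
    rcases Nat.eq_zero_or_pos n with h0 | h0
    · subst h0
      rw [MvPolynomial.esymm_zero, map_one, map_one]
    · have h1 : ∀ z : Fin r → R, (n : R) * MvPolynomial.aeval z (MvPolynomial.esymm (Fin r) ℤ n) =
          (-1) ^ (n + 1) * ∑ a ∈ (antidiagonal n).filter (fun a => a.1 < n),
            (-1) ^ a.1 * MvPolynomial.aeval z (MvPolynomial.esymm (Fin r) ℤ a.1) * ∑ i, z i ^ a.2 := by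
        intro z
        have h2 := congrArg (MvPolynomial.aeval z) (MvPolynomial.mul_esymm_eq_sum (Fin r) ℤ n)
        rw [map_mul, map_natCast, map_mul, map_pow, map_neg, map_one, map_sum] at h2
        rw [h2]
        congr 1
        refine Finset.sum_congr rfl fun a _ => ?_
        rw [map_mul, map_mul, map_pow, map_neg, map_one]
        congr 1
        rw [MvPolynomial.psum, map_sum]
        exact Finset.sum_congr rfl fun i _ => by rw [map_pow, MvPolynomial.aeval_X]
      refine (hu n h0 hn).mul_left_cancel ?_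
      rw [h1 x, h1 y]
      congr 1
      refine Finset.sum_congr rfl fun a ha => ?_
      rw [Finset.mem_filter, HasAntidiagonal.mem_antidiagonal] at ha
      rw [ih a.1 ha.2 (by omega), h a.2 (by omega) (by omega)]

/-- The product of the `t - x_i` is determined by the power sums. -/
theorem prod_eq {R : Type*} [CommRing R] {r : ℕ} (hu : ∀ j : ℕ, 1 ≤ j → j ≤ r → IsUnit (j : R))
    (x y : Fin r → R) (h : ∀ j : ℕ, 1 ≤ j → j ≤ r → ∑ i, x i ^ j = ∑ i, y i ^ j) (t : R) :
    ∏ i, (t - x i) = ∏ i, (t - y i) := by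
  have h1 : ∀ z : Fin r → R, ∏ i, (t - z i) = ∑ j ∈ range (r + 1),
      (-1) ^ j * (MvPolynomial.aeval z (MvPolynomial.esymm (Fin r) ℤ j) * t ^ (r - j)) := by
    intro z
    have h2 := congrArg (Polynomial.eval t) (Multiset.prod_X_sub_X_eq_sum_esymm (univ.val.map z))
    rw [Multiset.card_map, Finset.card_val, Finset.card_univ, Fintype.card_fin, Multiset.map_map,
      Polynomial.eval_finsetSum] at h2
    have h3 : (Multiset.map ((fun t => Polynomial.X - Polynomial.C t) ∘ z) univ.val).prod =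
        ∏ i, (Polynomial.X - Polynomial.C (z i)) := rfl
    rw [h3, Polynomial.eval_prod] at h2
    have h4 : ∀ i, Polynomial.eval t (Polynomial.X - Polynomial.C (z i)) = t - z i := fun i => by
      rw [Polynomial.eval_sub, Polynomial.eval_X, Polynomial.eval_C]
    simp only [h4] at h2
    rw [h2]
    refine Finset.sum_congr rfl fun j _ => ?_
    rw [Polynomial.eval_mul, Polynomial.eval_mul, Polynomial.eval_pow, Polynomial.eval_pow,
      Polynomial.eval_neg, Polynomial.eval_one, Polynomial.eval_C, Polynomial.eval_X,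
      MvPolynomial.aeval_esymm_eq_multiset_esymm]
  rw [h1 x, h1 y]
  refine Finset.sum_congr rfl fun j hj => ?_
  rw [esymm_eq hu x y h j (by rw [Finset.mem_range] at hj; omega)]

/-- A product of integers divisible by `p^r`, at most one factor divisible by `p`. -/
theorem dvd_of_prod {ι : Type*} [Fintype ι] [DecidableEq ι] {p : ℕ} (hp : p.Prime) {r : ℕ} (hr : 0 < r) (a : ι → ℤ)
    (h1 : ∀ i j, (p : ℤ) ∣ a i → (p : ℤ) ∣ a j → i = j) (h : (p : ℤ) ^ r ∣ ∏ i, a i) :
    ∃ i, (p : ℤ) ^ r ∣ a i := by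
  have hp' : Prime (p : ℤ) := Nat.prime_iff_prime_int.1 hp
  obtain ⟨i, -, hi⟩ := (hp'.dvd_finsetProd_iff a).1 ((dvd_pow_self _ hr.ne').trans h)
  refine ⟨i, ?_⟩
  rw [← Finset.mul_prod_erase univ a (mem_univ i)] at h
  refine (IsCoprime.pow_left ?_).dvd_of_dvd_mul_right h
  rw [Prime.coprime_iff_not_dvd hp']
  intro h2
  obtain ⟨j, hj, hj'⟩ := (hp'.dvd_finsetProd_iff a).1 h2
  exact Finset.ne_of_mem_erase hj (h1 j i hj' hi)

/-- Two systems with the same power sums modulo `p^r`, each of them distinct modulo `p`. -/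
theorem exists_eq {r p : ℕ} (hp : p.Prime) (hr : 0 < r) (hrp : r < p) (x y : Fin r → ℤ)
    (hx : ∀ i j, i ≠ j → ¬ (p : ℤ) ∣ x i - x j)
    (h : ∀ j : ℕ, 1 ≤ j → j ≤ r → (p : ℤ) ^ r ∣ ∑ i, x i ^ j - ∑ i, y i ^ j) (i : Fin r) :
    ∃ j, (p : ℤ) ^ r ∣ y i - x j := by
  have hdvd : ∀ a : ℤ, ((a : ℤ) : ZMod (p ^ r)) = 0 ↔ (p : ℤ) ^ r ∣ a := fun a => by
    rw [ZMod.intCast_zmod_eq_zero_iff_dvd, Nat.cast_pow]
  have h1 := prod_eq (R := ZMod (p ^ r)) (r := r) (fun j hj hjr => by
      rw [ZMod.isUnit_iff_coprime]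
      refine Nat.Coprime.pow_right r ?_
      rw [Nat.coprime_comm, hp.coprime_iff_not_dvd]
      exact fun h => absurd (Nat.le_of_dvd hj h) (by omega))
    (fun l => (x l : ZMod (p ^ r))) (fun l => (y l : ZMod (p ^ r))) (fun j hj hjr => by
      have h2 := (hdvd _).2 (h j hj hjr)
      push_cast at h2
      exact sub_eq_zero.1 h2) ((y i : ℤ) : ZMod (p ^ r))
  have h2 : ∏ l, (((y i : ℤ) : ZMod (p ^ r)) - (y l : ZMod (p ^ r))) = 0 :=
    Finset.prod_eq_zero (mem_univ i) (sub_self _)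
  rw [h2] at h1
  have h3 : (p : ℤ) ^ r ∣ ∏ l, (y i - x l) := by
    rw [← hdvd]
    push_cast
    exact h1
  refine dvd_of_prod hp hr _ (fun l l' hl hl' => ?_) h3
  by_contra hne
  apply hx l l' hne
  have h4 := dvd_sub hl' hl
  rwa [sub_sub_sub_cancel_left] at h4

/-- The number of residues modulo `p^r` in a residue class modulo `p^j`. -/
theorem card_class {p : ℕ} (hp : 0 < p) {j r : ℕ} (hjr : j ≤ r) (h : ℤ) :
    ((range (p ^ r)).filter fun c => ((c : ℕ) : ℤ) ≡ h [ZMOD (p : ℤ) ^ j]).card ≤ p ^ (r - j) := by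
  rw [← card_range (p ^ (r - j))]
  refine Finset.card_le_card_of_injOn (fun c => c / p ^ j) (fun c hc => ?_) (fun c hc c' hc' he => ?_)
  · rw [mem_coe, mem_filter, mem_range] at hc
    rw [mem_coe, mem_range]
    rw [Nat.div_lt_iff_lt_mul (pow_pos hp j), ← pow_add, Nat.sub_add_cancel hjr]
    exact hc.1
  · rw [mem_coe, mem_filter] at hc hc'
    have h1 := hc.2.trans hc'.2.symm
    have h2 : c ≡ c' [MOD p ^ j] := by
      rw [← Int.natCast_modEq_iff]
      rw [Nat.cast_pow]
      exact h1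
    have h3 : c % p ^ j = c' % p ^ j := h2
    have h4 : c / p ^ j = c' / p ^ j := he
    rw [← Nat.div_add_mod c (p ^ j), ← Nat.div_add_mod c' (p ^ j), h3, h4]

/-- **Linnik's lemma.** -/
theorem linnik_fact {p r : ℕ} (hp : p.Prime) (hrp : r < p) (S : Finset ℤ)
    (hS : ∀ x ∈ S, ∀ y ∈ S, (p : ℤ) ^ r ∣ x - y → x = y) (h : Fin r → ℤ) :
    ((Fintype.piFinset (fun _ : Fin r => S)).filter (fun x =>
      (∀ i k, i ≠ k → ¬ ((p : ℤ) ∣ x i - x k)) ∧
      ∀ j : Fin r, (p : ℤ) ^ ((j : ℕ) + 1) ∣ ∑ i, x i ^ ((j : ℕ) + 1) - h j)).card ≤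
      r.factorial * p ^ (r * (r - 1) / 2) := by
  classical
  rcases Nat.eq_zero_or_pos r with hr | hr
  · subst hr
    refine (Finset.card_filter_le _ _).trans ?_
    rw [Fintype.card_piFinset]
    simp
  set U := (Fintype.piFinset (fun _ : Fin r => S)).filter (fun x =>
      (∀ i k, i ≠ k → ¬ ((p : ℤ) ∣ x i - x k)) ∧
      ∀ j : Fin r, (p : ℤ) ^ ((j : ℕ) + 1) ∣ ∑ i, x i ^ ((j : ℕ) + 1) - h j) with hU
  have hppos : (0 : ℤ) < (p : ℤ) ^ r := pow_pos (by exact_mod_cast hp.pos) r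
  -- the power sums modulo `p^r`
  let f : (Fin r → ℤ) → (Fin r → ℕ) := fun x j => ((∑ i, x i ^ ((j : ℕ) + 1)) % (p : ℤ) ^ r).toNat
  have hf : ∀ x j, ((f x j : ℕ) : ℤ) = (∑ i, x i ^ ((j : ℕ) + 1)) % (p : ℤ) ^ r := fun x j =>
    Int.toNat_of_nonneg (Int.emod_nonneg _ hppos.ne')
  let T : Finset (Fin r → ℕ) := Fintype.piFinset fun j : Fin r =>
    (range (p ^ r)).filter fun c => ((c : ℕ) : ℤ) ≡ h j [ZMOD (p : ℤ) ^ ((j : ℕ) + 1)]
  have hfT : ∀ x ∈ U, f x ∈ T := by
    intro x hx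
    rw [Fintype.mem_piFinset]
    intro j
    rw [mem_filter, mem_range]
    constructor
    · have h1 := Int.emod_lt_of_pos (∑ i, x i ^ ((j : ℕ) + 1)) hppos
      rw [← hf] at h1
      exact_mod_cast h1
    · have h1 := (Finset.mem_filter.1 hx).2.2 j
      rw [← Int.modEq_iff_dvd] at h1
      refine Int.ModEq.trans ?_ h1.symm
      have h2 : ((f x j : ℕ) : ℤ) ≡ ∑ i, x i ^ ((j : ℕ) + 1) [ZMOD (p : ℤ) ^ r] := by
        rw [hf]
        exact Int.mod_modEq _ _
      exact h2.of_dvd (pow_dvd_pow (p : ℤ) (by omega : (j : ℕ) + 1 ≤ r))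
  have hT : T.card ≤ p ^ (r * (r - 1) / 2) := by
    rw [Fintype.card_piFinset]
    refine (Finset.prod_le_prod' fun (j : Fin r) _ => card_class hp.pos (by omega : (j : ℕ) + 1 ≤ r)
      (h j)).trans ?_
    rw [Finset.prod_pow_eq_pow_sum, Fin.sum_univ_eq_sum_range (fun j => r - (j + 1)) r,
      ← Finset.sum_range_id]
    refine le_of_eq ?_
    congr 1
    rw [← Finset.sum_range_reflect]
    exact Finset.sum_congr rfl fun j hj => by
      rw [mem_range] at hj
      omega
  have hfib : ∀ b ∈ T, (U.filter fun x => f x = b).card ≤ r.factorial := by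
    intro b _
    rcases (U.filter fun x => f x = b).eq_empty_or_nonempty with he | ⟨x, hx⟩
    · rw [he, card_empty]
      exact Nat.zero_le _
    · rw [mem_filter] at hx
      have h1 : (U.filter fun x => f x = b) ⊆
          (univ : Finset (Equiv.Perm (Fin r))).image fun σ i => x (σ i) := by
        intro y hy
        rw [mem_filter] at hy
        have hxU := Finset.mem_filter.1 hx.1
        have hyU := Finset.mem_filter.1 hy.1
        have h2 : ∀ j : ℕ, 1 ≤ j → j ≤ r → (p : ℤ) ^ r ∣ ∑ i, x i ^ j - ∑ i, y i ^ j := by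
          intro j hj hjr
          have h3 : f x ⟨j - 1, by omega⟩ = f y ⟨j - 1, by omega⟩ := by rw [hx.2, hy.2]
          have h4 := congrArg (Nat.cast : ℕ → ℤ) h3
          rw [hf, hf] at h4
          have h5 : (∑ i, x i ^ (j - 1 + 1)) % (p : ℤ) ^ r = (∑ i, y i ^ (j - 1 + 1)) % (p : ℤ) ^ r := h4
          rw [Nat.sub_add_cancel hj] at h5
          exact Int.modEq_iff_dvd.1 h5.symm
        choose σ hσ using fun i => exists_eq hp hr hrp x y hxU.2.1 h2 i
        have h4 : ∀ i, y i = x (σ i) := fun i =>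
          hS _ ((Fintype.mem_piFinset.1 hyU.1) i) _ ((Fintype.mem_piFinset.1 hxU.1) _) (hσ i)
        have h5 : Function.Injective σ := by
          intro i j hij
          by_contra hne
          apply hyU.2.1 i j hne
          rw [h4 i, h4 j, hij, sub_self]
          exact dvd_zero _
        rw [mem_image]
        refine ⟨Equiv.ofBijective σ (Finite.injective_iff_bijective.1 h5), mem_univ _, ?_⟩
        funext i
        exact (h4 i).symm
      refine (Finset.card_le_card h1).trans (Finset.card_image_le.trans ?_)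
      rw [card_univ, Fintype.card_perm, Fintype.card_fin]
  have h1 := Finset.card_le_mul_card_image_of_maps_to hfT r.factorial hfib
  exact h1.trans (Nat.mul_le_mul_left _ hT)

theorem linnik {p r : ℕ} (hp : p.Prime) (hr : r < p) (S : Finset ℤ)
    (hS : ∀ x ∈ S, ∀ y ∈ S, ((p : ℤ) ^ r) ∣ x - y → x = y) (h : Fin r → ℤ) :
    ((Fintype.piFinset (fun _ : Fin r => S)).filter (fun x =>
      (∀ i k, i ≠ k → ¬ ((p : ℤ) ∣ x i - x k)) ∧
      ∀ j : Fin r, (p : ℤ) ^ ((j : ℕ) + 1) ∣ ∑ i, x i ^ ((j : ℕ) + 1) - h j)).card ≤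
      r ^ r * p ^ (r * (r - 1) / 2) :=
  (linnik_fact hp hr S hS h).trans (Nat.mul_le_mul_right _ (Nat.factorial_le_pow r))

end VM
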