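import Pool.Agent.Lib.MP_570bef_ntV.VM.Lift
import Pool.Agent.Lib.MP_570bef_ntV.VM.Nat
import Pool.Agent.Lib.MP_570bef_ntV.VM.Linnik

/-!
# The well conditioned part of the mean value
-/

set_option linter.unusedSectionVars false

namespace Pool.Agent.Lib.MP_570bef_ntV.VM

open Finset

theorem shift_sum {ρ : Type*} [Fintype ρ] (z : ρ → ℤ) (a : ℤ) (j : ℕ) : ∑ i, (z i - a) ^ (j + 1) =
    ∑ m ∈ range (j + 1 + 1), (∑ i, z i ^ m) * ((-a) ^ (j + 1 - m) * ((j + 1).choose m : ℤ)) := by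
  simp only [sum_mul]
  rw [sum_comm]
  refine sum_congr rfl fun i _ => ?_
  rw [sub_eq_add_neg, add_pow]
  refine sum_congr rfl fun m _ => ?_
  ring

/-- translation invariance -/
theorem vs_trans (r : ℕ) {ι κ : Type*} [Fintype ι] [Fintype κ] (x y : ι → ℤ) (u v : κ → ℤ)
    (h : vs r x + vs r u = vs r y + vs r v) (a : ℤ) :
    vs r (fun i => x i - a) + vs r (fun i => u i - a) = vs r (fun i => y i - a) + vs r (fun i => v i - a) := by
  funext j
  simp only [vs, Pi.add_apply]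
  rw [shift_sum x, shift_sum u, shift_sum y, shift_sum v, ← sum_add_distrib, ← sum_add_distrib]
  refine sum_congr rfl fun m hm => ?_
  rw [← add_mul, ← add_mul]
  congr 1
  rcases Nat.eq_zero_or_pos m with rfl | hm0
  · simp
  · have hm1 := mem_range.1 hm
    have hj := j.2
    have := congrFun h ⟨m - 1, by omega⟩
    simp only [vs, Pi.add_apply] at this
    rw [Nat.sub_add_cancel hm0] at this
    exact this

/-- scaling -/
theorem vs_scale (r s : ℕ) (p : ℤ) (u : Fin s → ℤ) (j : Fin r) :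
    vs r (fun i => p * u i) j = p ^ ((j : ℕ) + 1) * vs r u j := by
  simp only [vs, mul_pow, mul_sum]

/-- solutions in a residue class -/
theorem class_le (r s N p a : ℕ) (hp : 1 ≤ p) :
    ((tup s ((Ico (0 : ℤ) N).filter (fun x => x % (p : ℤ) = (a : ℤ))) ×ˢ
      tup s ((Ico (0 : ℤ) N).filter (fun x => x % (p : ℤ) = (a : ℤ)))).filter
      (fun z => vs r (fun i => z.1 i - (a : ℤ)) = vs r (fun i => z.2 i - (a : ℤ)))).card ≤
      _root_.VM.JN s r (N / p + 1) := by
  have hp0 : (0 : ℤ) < p := by exact_mod_cast hp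
  -- the quotient
  have hq : ∀ x ∈ (Ico (0 : ℤ) N).filter (fun x => x % (p : ℤ) = (a : ℤ)),
      x - (a : ℤ) = (p : ℤ) * (((x / (p : ℤ)).toNat : ℕ) : ℤ) ∧ (x / (p : ℤ)).toNat < N / p + 1 := by
    intro x hx
    rw [mem_filter, mem_Ico] at hx
    obtain ⟨⟨h0, h1⟩, h2⟩ := hx
    have h3 : 0 ≤ x / (p : ℤ) := Int.ediv_nonneg h0 hp0.le
    have h4 := Int.mul_ediv_add_emod x (p : ℤ)
    rw [Int.toNat_of_nonneg h3]
    refine ⟨by rw [h2] at h4; linarith, ?_⟩
    have h5 : x / (p : ℤ) ≤ (N : ℤ) / (p : ℤ) := Int.ediv_le_ediv hp0 h1.le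
    have h6 : ((N / p : ℕ) : ℤ) = (N : ℤ) / (p : ℤ) := by simp
    omega
  have hm : ∀ x ∈ tup s ((Ico (0 : ℤ) N).filter (fun x => x % (p : ℤ) = (a : ℤ))), ∀ i,
      x i ∈ (Ico (0 : ℤ) N).filter (fun x => x % (p : ℤ) = (a : ℤ)) := by
    intro x hx i
    rw [tup, Fintype.mem_piFinset] at hx
    exact hx i
  refine card_le_card_of_injOn
    (fun z => (fun i => if h : ((z.1 i / (p : ℤ)).toNat) < N / p + 1 then (⟨_, h⟩ : Fin (N / p + 1)) else ⟨0, Nat.succ_pos _⟩,
      fun i => if h : ((z.2 i / (p : ℤ)).toNat) < N / p + 1 then (⟨_, h⟩ : Fin (N / p + 1)) else ⟨0, Nat.succ_pos _⟩)) ?_ ?_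
  · intro z hz
    rw [mem_coe, mem_filter, mem_product] at hz
    obtain ⟨⟨hz1, hz2⟩, hz3⟩ := hz
    rw [mem_coe, mem_filter]
    refine ⟨mem_univ _, fun j hj => ?_⟩
    rw [mem_Icc] at hj
    have e1 : ∀ x ∈ tup s ((Ico (0 : ℤ) N).filter (fun x => x % (p : ℤ) = (a : ℤ))), ∀ i,
        (((if h : ((x i / (p : ℤ)).toNat) < N / p + 1 then (⟨_, h⟩ : Fin (N / p + 1)) else ⟨0, Nat.succ_pos _⟩ : Fin (N / p + 1)) : ℕ)) =
        (x i / (p : ℤ)).toNat := by
      intro x hx i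
      rw [dif_pos (hq _ (hm x hx i)).2]
    have e2 : ∀ x ∈ tup s ((Ico (0 : ℤ) N).filter (fun x => x % (p : ℤ) = (a : ℤ))),
        vs r (fun i => x i - (a : ℤ)) ⟨j - 1, by omega⟩ = (p : ℤ) ^ j * ((∑ i, ((x i / (p : ℤ)).toNat) ^ j : ℕ) : ℤ) := by
      intro x hx
      have : (fun i => x i - (a : ℤ)) = fun i => (p : ℤ) * (((x i / (p : ℤ)).toNat : ℕ) : ℤ) := by
        funext i
        exact (hq _ (hm x hx i)).1
      rw [this, vs_scale]
      simp only [vs, Nat.sub_add_cancel hj.1]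
      push_cast
      rfl
    have e3 := congrFun hz3 ⟨j - 1, by omega⟩
    rw [e2 _ hz1, e2 _ hz2] at e3
    have e4 : ((∑ i, ((z.1 i / (p : ℤ)).toNat) ^ j : ℕ) : ℤ) = ((∑ i, ((z.2 i / (p : ℤ)).toNat) ^ j : ℕ) : ℤ) :=
      mul_left_cancel₀ (pow_ne_zero _ hp0.ne') e3
    have e5 : (∑ i, ((z.1 i / (p : ℤ)).toNat) ^ j : ℕ) = ∑ i, ((z.2 i / (p : ℤ)).toNat) ^ j := by exact_mod_cast e4
    simp only [e1 _ hz1, e1 _ hz2]
    exact e5
  · intro z hz w hw h
    rw [mem_coe, mem_filter, mem_product] at hz hw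
    obtain ⟨⟨hz1, hz2⟩, -⟩ := hz
    obtain ⟨⟨hw1, hw2⟩, -⟩ := hw
    have e1 : ∀ x ∈ tup s ((Ico (0 : ℤ) N).filter (fun x => x % (p : ℤ) = (a : ℤ))),
        ∀ y ∈ tup s ((Ico (0 : ℤ) N).filter (fun x => x % (p : ℤ) = (a : ℤ))),
        (fun i => if h : ((x i / (p : ℤ)).toNat) < N / p + 1 then (⟨_, h⟩ : Fin (N / p + 1)) else ⟨0, Nat.succ_pos _⟩) =
        (fun i => if h : ((y i / (p : ℤ)).toNat) < N / p + 1 then (⟨_, h⟩ : Fin (N / p + 1)) else ⟨0, Nat.succ_pos _⟩) → x = y := by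
      intro x hx y hy hxy
      funext i
      have e2 := congrFun hxy i
      simp only [dif_pos (hq _ (hm x hx i)).2, dif_pos (hq _ (hm y hy i)).2, Fin.mk.injEq] at e2
      have e3 := (hq _ (hm x hx i)).1
      have e4 := (hq _ (hm y hy i)).1
      rw [e2, ← e4] at e3
      linarith
    have h1 := congrArg Prod.fst h
    have h2 := congrArg Prod.snd h
    exact Prod.ext (e1 _ hz1 _ hw1 h1) (e1 _ hz2 _ hw2 h2)

/-- the best class -/
theorem W_class {τ : Type*} {d : ℕ} (s p : ℕ) (hp : 1 ≤ p) (T : Finset τ) (F : τ → Fin d → ℤ) (S : Finset ℤ) :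
    ∃ a ∈ range p, (W T F (tup s S) (vs d)) ≤ p ^ (2 * s) *
      W T F (tup s (S.filter (fun x => x % (p : ℤ) = (a : ℤ)))) (vs d) := by
  have hne : (range p).Nonempty := ⟨0, mem_range.2 hp⟩
  rcases Nat.eq_zero_or_pos s with rfl | hs
  · refine ⟨0, mem_range.2 hp, ?_⟩
    have : tup 0 (S.filter (fun x => x % (p : ℤ) = ((0 : ℕ) : ℤ))) = tup 0 S := by
      ext x
      simp [tup]
    rw [this]
    simp
  · obtain ⟨a, ha, hmax⟩ := exists_max_image (range p)
      (fun a => W T F (tup s (S.filter (fun x => x % (p : ℤ) = (a : ℤ)))) (vs d)) hne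
    refine ⟨a, ha, ?_⟩
    have h1 := W_split s p hs hp T F S
    have h2 : ∑ b ∈ range p, (W T F (tup s (S.filter (fun x => x % (p : ℤ) = (b : ℤ)))) (vs d) : ℝ) ≤
        (p : ℝ) * (W T F (tup s (S.filter (fun x => x % (p : ℤ) = (a : ℤ)))) (vs d) : ℝ) := by
      have := sum_le_card_nsmul (range p)
        (fun b : ℕ => (W T F (tup s (S.filter (fun x => x % (p : ℤ) = (b : ℤ)))) (vs d) : ℝ))
        (W T F (tup s (S.filter (fun x => x % (p : ℤ) = (a : ℤ)))) (vs d) : ℝ)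
        (fun b hb => by exact_mod_cast hmax b hb)
      rw [card_range, nsmul_eq_mul] at this
      exact this
    have h3 : (W T F (tup s S) (vs d) : ℝ) ≤ (p : ℝ) ^ (2 * s) *
        (W T F (tup s (S.filter (fun x => x % (p : ℤ) = (a : ℤ)))) (vs d) : ℝ) := by
      refine h1.trans ((mul_le_mul_of_nonneg_left h2 (by positivity)).trans (le_of_eq ?_))
      rw [← mul_assoc, ← pow_succ]
      congr 2
      omega
    exact_mod_cast h3

/-- counting through the first two coordinates -/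
theorem W_le_of {τ α V : Type*} [DecidableEq V] [Add V] (T : Finset τ) (F : τ → V) (A : Finset α) (G : α → V)
    (R : τ → τ → Prop) [DecidableRel R] (B : ℕ)
    (hR : ∀ x ∈ T, ∀ y ∈ T, ∀ u ∈ A, ∀ v ∈ A, F x + G u = F y + G v → R x y)
    (hB : ∀ x ∈ T, ∀ y ∈ T, ((A ×ˢ A).filter (fun z => F x + G z.1 = F y + G z.2)).card ≤ B) :
    W T F A G ≤ ((T ×ˢ T).filter (fun z => R z.1 z.2)).card * B := by
  unfold W
  rw [card_filter, sum_product, card_filter, sum_mul]
  refine sum_le_sum fun z hz => ?_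
  rw [mem_product] at hz
  rw [← card_filter]
  split_ifs with h
  · rw [Nat.one_mul]
    exact hB _ hz.1 _ hz.2
  · rw [Nat.zero_mul, Nat.le_zero, card_eq_zero]
    refine filter_eq_empty_iff.2 fun w hw hw' => h ?_
    rw [mem_product] at hw
    exact hR _ hz.1 _ hz.2 _ hw.1 _ hw.2 hw'

/-- The well conditioned solutions modulo `p`. -/
theorem well (r s : ℕ) (N p : ℕ) (_hN : 1 ≤ N) (hp : p.Prime) (hrp : r < p) (hNp : N ≤ p ^ r) :
    W ((tup r (Ico (0 : ℤ) N)).filter (fun x => ∀ i k, i ≠ k → ¬ ((p : ℤ) ∣ x i - x k))) (vs r)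
      (tup s (Ico (0 : ℤ) N)) (vs r) ≤
      p ^ (2 * s) * (N ^ r * (r ^ r * p ^ (r * (r - 1) / 2)) * _root_.VM.JN s r (N / p + 1)) := by
  classical
  obtain ⟨a, ha, h1⟩ := W_class s p hp.one_le
    ((tup r (Ico (0 : ℤ) N)).filter (fun x => ∀ i k, i ≠ k → ¬ ((p : ℤ) ∣ x i - x k))) (vs r) (Ico (0 : ℤ) N)
  refine h1.trans (Nat.mul_le_mul_left _ ?_)
  rw [mem_range] at ha
  set T := (tup r (Ico (0 : ℤ) N)).filter (fun x => ∀ i k, i ≠ k → ¬ ((p : ℤ) ∣ x i - x k)) with hT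
  set A := tup s ((Ico (0 : ℤ) N).filter (fun x => x % (p : ℤ) = (a : ℤ))) with hA
  have hAdvd : ∀ u ∈ A, ∀ i, (p : ℤ) ∣ u i - (a : ℤ) := by
    intro u hu i
    rw [hA, tup, Fintype.mem_piFinset] at hu
    have h2 := (mem_filter.1 (hu i)).2
    have h3 := Int.mul_ediv_add_emod (u i) (p : ℤ)
    rw [h2] at h3
    exact ⟨u i / (p : ℤ), by linarith⟩
  have hvsdvd : ∀ u ∈ A, ∀ j : Fin r, (p : ℤ) ^ ((j : ℕ) + 1) ∣ vs r (fun i => u i - (a : ℤ)) j := by
    intro u hu j
    exact dvd_sum fun i _ => pow_dvd_pow_of_dvd (hAdvd u hu i) _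
  have h2 := W_le_of T (vs r) A (vs r)
    (fun x y => ∀ j : Fin r, (p : ℤ) ^ ((j : ℕ) + 1) ∣ vs r (fun i => x i - (a : ℤ)) j - vs r (fun i => y i - (a : ℤ)) j)
    (_root_.VM.JN s r (N / p + 1)) ?_ ?_
  · refine h2.trans (Nat.mul_le_mul_right _ ?_)
    rw [card_filter, sum_product_right]
    have h3 : ∀ y ∈ T, ∑ x ∈ T, (if ∀ j : Fin r, (p : ℤ) ^ ((j : ℕ) + 1) ∣ vs r (fun i => (x, y).1 i - (a : ℤ)) j -
        vs r (fun i => (x, y).2 i - (a : ℤ)) j then 1 else 0) ≤ r ^ r * p ^ (r * (r - 1) / 2) := by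
      intro y _
      rw [← card_filter]
      refine le_trans ?_ (_root_.VM.linnik hp hrp ((Ico (0 : ℤ) N).image (fun x => x - (a : ℤ))) ?_
        (vs r (fun i => y i - (a : ℤ))))
      · refine card_le_card_of_injOn (fun x i => x i - (a : ℤ)) ?_ ?_
        · intro x hx
          rw [mem_coe, mem_filter, hT, mem_filter, tup, Fintype.mem_piFinset] at hx
          rw [mem_coe, mem_filter, Fintype.mem_piFinset]
          refine ⟨fun i => mem_image_of_mem _ (hx.1.1 i), fun i k hik hd => hx.1.2 i k hik ?_, hx.2⟩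
          have e : x i - (a : ℤ) - (x k - (a : ℤ)) = x i - x k := by ring
          rwa [e] at hd
        · intro x _ x' _ h
          funext i
          have := congrFun h i
          simpa using this
      · intro x hx x' hx' hd
        obtain ⟨z, hz, rfl⟩ := mem_image.1 hx
        obtain ⟨z', hz', rfl⟩ := mem_image.1 hx'
        rw [mem_Ico] at hz hz'
        have hNp' : (N : ℤ) ≤ (p : ℤ) ^ r := by exact_mod_cast hNp
        have e : z - (a : ℤ) - (z' - (a : ℤ)) = z - z' := by ring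
        rw [e] at hd
        have h5 := Int.eq_zero_of_abs_lt_dvd hd (by
          rw [abs_lt]
          constructor <;> linarith [hz.1, hz.2, hz'.1, hz'.2])
        have : z = z' := by linarith
        rw [this]
    refine (sum_le_card_nsmul _ _ _ h3).trans ?_
    rw [smul_eq_mul]
    refine Nat.mul_le_mul_right _ ?_
    refine (card_filter_le _ _).trans (le_of_eq ?_)
    rw [tup, Fintype.card_piFinset_const, Int.card_Ico, sub_zero, Int.toNat_natCast]
  · intro x _ y _ u hu v hv h j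
    have h3 := vs_trans r x y u v h (a : ℤ)
    have h4 := congrFun h3 j
    simp only [Pi.add_apply] at h4
    have h5 := hvsdvd u hu j
    have h6 := hvsdvd v hv j
    have h7 : vs r (fun i => x i - (a : ℤ)) j - vs r (fun i => y i - (a : ℤ)) j =
        vs r (fun i => v i - (a : ℤ)) j - vs r (fun i => u i - (a : ℤ)) j := by linarith
    rw [h7]
    exact dvd_sub h6 h5
  · intro x _ y _
    refine le_trans (card_le_card ?_) ((triangle A (fun u => vs r (fun i => u i - (a : ℤ)))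
      (vs r (fun i => x i - (a : ℤ)) - vs r (fun i => y i - (a : ℤ)))).trans (class_le r s N p a hp.one_le))
    intro z hz
    rw [mem_filter] at hz ⊢
    refine ⟨hz.1, ?_⟩
    have h3 := vs_trans r x y z.1 z.2 hz.2 (a : ℤ)
    rw [sub_eq_sub_iff_add_eq_add, add_comm, ← h3]

/-- splitting the variables -/
theorem JN_le_W (r s N : ℕ) :
    _root_.VM.JN (r + s) r N ≤ W (tup r (Ico (0 : ℤ) N)) (vs r) (tup s (Ico (0 : ℤ) N)) (vs r) := by
  unfold W _root_.VM.JN
  have hmem : ∀ (m : ℕ) (x : Fin m → Fin N), (fun i => (((x i : Fin N) : ℕ) : ℤ)) ∈ tup m (Ico (0 : ℤ) N) := by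
    intro m x
    rw [tup, Fintype.mem_piFinset]
    intro i
    rw [mem_Ico]
    exact ⟨by positivity, by exact_mod_cast (x i).2⟩
  refine card_le_card_of_injOn (fun q =>
    (((fun i => ((q.1 (Fin.castAdd s i) : ℕ) : ℤ)), (fun i => ((q.2 (Fin.castAdd s i) : ℕ) : ℤ))),
     ((fun i => ((q.1 (Fin.natAdd r i) : ℕ) : ℤ)), (fun i => ((q.2 (Fin.natAdd r i) : ℕ) : ℤ))))) ?_ ?_
  · intro q hq
    rw [mem_coe, mem_filter] at hq
    rw [mem_coe, mem_filter, mem_product, mem_product, mem_product]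
    refine ⟨⟨⟨hmem r _, hmem r _⟩, hmem s _, hmem s _⟩, ?_⟩
    funext j
    have h1 := hq.2 ((j : ℕ) + 1) (mem_Icc.2 ⟨by omega, by have := j.2; omega⟩)
    rw [Fin.sum_univ_add, Fin.sum_univ_add] at h1
    simp only [vs, Pi.add_apply]
    exact_mod_cast h1
  · intro q _ q' _ h
    simp only [Prod.mk.injEq] at h
    obtain ⟨⟨h1, h2⟩, h3, h4⟩ := h
    refine Prod.ext ?_ ?_
    · funext i
      refine Fin.addCases (fun i => ?_) (fun i => ?_) i
      · have := congrFun h1 i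
        exact Fin.ext (by exact_mod_cast this)
      · have := congrFun h3 i
        exact Fin.ext (by exact_mod_cast this)
    · funext i
      refine Fin.addCases (fun i => ?_) (fun i => ?_) i
      · have := congrFun h2 i
        exact Fin.ext (by exact_mod_cast this)
      · have := congrFun h4 i
        exact Fin.ext (by exact_mod_cast this)

end Pool.Agent.Lib.MP_570bef_ntV.VM
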