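import Pool.Agent.Lib.MP_570bef_ntV.VM.Asm
import Pool.Agent.Lib.MP_570bef_ntV.VM.Cls

/-!
# The recursion for Vinogradov's mean value
-/

namespace VM

/-- The recursion `J_{r+s}(N) ≤ C N^r p^(2 s + r (r - 1) / 2) J_s(N / p + 1)` with `p` of size `N^(1/r)`. -/
theorem rec_step (r s : ℕ) (hr : 1 ≤ r) : ∃ C : ℝ, 1 ≤ C ∧ ∀ N : ℕ, 1 ≤ N → ∃ p : ℕ, 1 ≤ p ∧
    (N : ℝ) ≤ (p : ℝ) ^ r ∧ (p : ℝ) ^ r ≤ C * N ∧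
    (VM.JN (r + s) r N : ℝ) ≤ C * ((N : ℝ) ^ r * (p : ℝ) ^ (2 * s + r * (r - 1) / 2) * (VM.JN s r (N / p + 1) : ℝ)) :=
  Pool.Agent.Lib.MP_570bef_ntV.VM.rec_of r s hr
    (fun S i j hij K hK => Pool.Agent.Lib.MP_570bef_ntV.VM.coinc r s S i j hij K hK)
    (fun N p hN hp hrp hNp => Pool.Agent.Lib.MP_570bef_ntV.VM.well r s N p hN hp hrp hNp)
    (fun N => Pool.Agent.Lib.MP_570bef_ntV.VM.JN_le_W r s N)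

end VM
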