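import Pool.Agent.Lib.MP_570bef_ntV.VM.Four
import Pool.Agent.Lib.MP_570bef_ntV.VM.Nat
import Pool.Agent.Lib.MP_570bef_ntV.VM.Primes

/-!
# The recursion for Vinogradov's mean value: assembly
-/

set_option autoImplicit false

namespace Pool.Agent.Lib.MP_570bef_ntV.VM

open Finset

/-- Splitting off the tuples with two equal entries. -/
theorem asm_split (r s : ℕ) (S : Finset ℤ) :
    W (tup r S) (vs r) (tup s S) (vs r) ≤
      ((((tup r S ×ˢ tup r S) ×ˢ (tup s S ×ˢ tup s S)).filter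
        (fun z => vs r z.1.1 + vs r z.2.1 = vs r z.1.2 + vs r z.2.2)).filter
          (fun z => Function.Injective z.1.1 ∧ Function.Injective z.1.2)).card +
      2 * ∑ ij ∈ (univ : Finset (Fin r)).offDiag,
        W4 ((tup r S).filter (fun x => x ij.1 = x ij.2)) (tup r S) (vs r) (tup s S) (vs r) := by
  classical
  set E := ((tup r S ×ˢ tup r S) ×ˢ (tup s S ×ˢ tup s S)).filter
        (fun z => vs r z.1.1 + vs r z.2.1 = vs r z.1.2 + vs r z.2.2) with hE
  let E1 : Fin r × Fin r → Finset (((Fin r → ℤ) × (Fin r → ℤ)) × ((Fin s → ℤ) × (Fin s → ℤ))) := fun ij =>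
    (((tup r S).filter (fun x => x ij.1 = x ij.2) ×ˢ tup r S) ×ˢ (tup s S ×ˢ tup s S)).filter
        (fun z => vs r z.1.1 + vs r z.2.1 = vs r z.1.2 + vs r z.2.2)
  let E2 : Fin r × Fin r → Finset (((Fin r → ℤ) × (Fin r → ℤ)) × ((Fin s → ℤ) × (Fin s → ℤ))) := fun ij =>
    ((tup r S ×ˢ (tup r S).filter (fun x => x ij.1 = x ij.2)) ×ˢ (tup s S ×ˢ tup s S)).filter
        (fun z => vs r z.1.1 + vs r z.2.1 = vs r z.1.2 + vs r z.2.2)
  have h12 : ∀ ij, (E2 ij).card ≤ (E1 ij).card := by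
    intro ij
    refine Finset.card_le_card_of_injOn (fun z => ((z.1.2, z.1.1), (z.2.2, z.2.1))) (fun z hz => ?_)
      (fun z _ z' _ h => ?_)
    · rw [mem_coe, mem_filter, mem_product, mem_product, mem_product] at hz
      rw [mem_coe, mem_filter, mem_product, mem_product, mem_product]
      exact ⟨⟨⟨hz.1.1.2, hz.1.1.1⟩, ⟨hz.1.2.2, hz.1.2.1⟩⟩, hz.2.symm⟩
    · obtain ⟨⟨a, b⟩, c, d⟩ := z
      obtain ⟨⟨a', b'⟩, c', d'⟩ := z'
      simp only [Prod.mk.injEq] at h
      obtain ⟨⟨rfl, rfl⟩, rfl, rfl⟩ := h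
      rfl
  have hsub : E ⊆ (E.filter (fun z => Function.Injective z.1.1 ∧ Function.Injective z.1.2)) ∪
      (((univ : Finset (Fin r)).offDiag.biUnion E1) ∪ ((univ : Finset (Fin r)).offDiag.biUnion E2)) := by
    intro z hz
    rw [mem_union, mem_union]
    by_cases h1 : Function.Injective z.1.1
    · by_cases h2 : Function.Injective z.1.2
      · exact Or.inl (mem_filter.2 ⟨hz, h1, h2⟩)
      · right
        right
        unfold Function.Injective at h2
        push Not at h2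
        obtain ⟨i, j, hij, hne⟩ := h2
        rw [mem_biUnion]
        refine ⟨(i, j), mem_offDiag.2 ⟨mem_univ _, mem_univ _, hne⟩, ?_⟩
        rw [hE, mem_filter, mem_product, mem_product, mem_product] at hz
        rw [mem_filter, mem_product, mem_product, mem_product, mem_filter]
        exact ⟨⟨⟨hz.1.1.1, hz.1.1.2, hij⟩, hz.1.2⟩, hz.2⟩
    · right
      left
      unfold Function.Injective at h1
      push Not at h1
      obtain ⟨i, j, hij, hne⟩ := h1
      rw [mem_biUnion]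
      refine ⟨(i, j), mem_offDiag.2 ⟨mem_univ _, mem_univ _, hne⟩, ?_⟩
      rw [hE, mem_filter, mem_product, mem_product, mem_product] at hz
      rw [mem_filter, mem_product, mem_product, mem_product, mem_filter]
      exact ⟨⟨⟨⟨hz.1.1.1, hij⟩, hz.1.1.2⟩, hz.1.2⟩, hz.2⟩
  have h3 := (Finset.card_le_card hsub).trans ((Finset.card_union_le _ _).trans
    (Nat.add_le_add_left (Finset.card_union_le _ _) _))
  have h4 : ((univ : Finset (Fin r)).offDiag.biUnion E1).card ≤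
      ∑ ij ∈ (univ : Finset (Fin r)).offDiag,
        W4 ((tup r S).filter (fun x => x ij.1 = x ij.2)) (tup r S) (vs r) (tup s S) (vs r) :=
    Finset.card_biUnion_le
  have h5 : ((univ : Finset (Fin r)).offDiag.biUnion E2).card ≤
      ∑ ij ∈ (univ : Finset (Fin r)).offDiag,
        W4 ((tup r S).filter (fun x => x ij.1 = x ij.2)) (tup r S) (vs r) (tup s S) (vs r) :=
    Finset.card_biUnion_le.trans (Finset.sum_le_sum fun ij _ => h12 ij)
  change E.card ≤ _
  omega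

theorem JN_pos (s r Z : ℕ) (hZ : 1 ≤ Z) : 1 ≤ _root_.VM.JN s r Z := by
  unfold _root_.VM.JN
  rw [Nat.one_le_iff_ne_zero, ← Nat.pos_iff_ne_zero, Finset.card_pos]
  exact ⟨(fun _ => ⟨0, hZ⟩, fun _ => ⟨0, hZ⟩), mem_filter.2 ⟨mem_univ _, fun j _ => rfl⟩⟩

theorem JN_le (s r Z : ℕ) : _root_.VM.JN s r Z ≤ Z ^ (2 * s) := by
  unfold _root_.VM.JN
  refine (Finset.card_le_univ _).trans ?_
  rw [Fintype.card_prod, Fintype.card_fun, Fintype.card_fin, Fintype.card_fin, ← pow_add, two_mul]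

theorem rec_of (r s : ℕ) (hr : 1 ≤ r)
    (H1 : ∀ (S : Finset ℤ) (i j : Fin r), i ≠ j → ∀ K : ℝ, 0 ≤ K →
      K * (W4 ((tup r S).filter (fun x => x i = x j)) (tup r S) (vs r) (tup s S) (vs r) : ℝ) ≤
        (W (tup r S) (vs r) (tup s S) (vs r) : ℝ) +
          K ^ (r + s) * √(W (tup r S) (vs r) (tup s S) (vs r) : ℝ))
    (H2 : ∀ N p : ℕ, 1 ≤ N → p.Prime → r < p → N ≤ p ^ r →
      W ((tup r (Finset.Ico (0 : ℤ) N)).filter (fun x => ∀ i k, i ≠ k → ¬ ((p : ℤ) ∣ x i - x k))) (vs r)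
        (tup s (Finset.Ico (0 : ℤ) N)) (vs r) ≤
          p ^ (2 * s) * (N ^ r * (r ^ r * p ^ (r * (r - 1) / 2)) * _root_.VM.JN s r (N / p + 1)))
    (H3 : ∀ N : ℕ, _root_.VM.JN (r + s) r N ≤
      W (tup r (Finset.Ico (0 : ℤ) N)) (vs r) (tup s (Finset.Ico (0 : ℤ) N)) (vs r)) :
    ∃ C : ℝ, 1 ≤ C ∧ ∀ N : ℕ, 1 ≤ N → ∃ p : ℕ, 1 ≤ p ∧ (N : ℝ) ≤ (p : ℝ) ^ r ∧ (p : ℝ) ^ r ≤ C * N ∧
      (_root_.VM.JN (r + s) r N : ℝ) ≤
        C * ((N : ℝ) ^ r * (p : ℝ) ^ (2 * s + r * (r - 1) / 2) * (_root_.VM.JN s r (N / p + 1) : ℝ)) := by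
  classical
  obtain ⟨C0, N0, hC0⟩ := _root_.VM.primes r hr
  set K : ℝ := 4 * (r : ℝ) ^ 2 with hK
  set N1 : ℕ := N0 + r + 1 with hN1
  have hr0 : (1 : ℝ) ≤ r := by exact_mod_cast hr
  have hK0 : 0 < K := by positivity
  have hN1' : (1 : ℝ) ≤ N1 := by
    rw [hN1]
    push_cast
    have : (0 : ℝ) ≤ (N0 : ℝ) := Nat.cast_nonneg _
    linarith
  set C : ℝ := 4 * C0 * (r : ℝ) ^ r + K ^ (2 * (r + s)) + C0 + (N1 : ℝ) ^ r + (N1 : ℝ) ^ (2 * (r + s)) + 1
    with hC
  have hC0' : (0 : ℝ) ≤ (C0 : ℝ) := Nat.cast_nonneg _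
  have hCa : 0 ≤ 4 * C0 * (r : ℝ) ^ r := by positivity
  have hCb : 0 ≤ K ^ (2 * (r + s)) := by positivity
  have hCc : 0 ≤ (N1 : ℝ) ^ r := by positivity
  have hCd : 0 ≤ (N1 : ℝ) ^ (2 * (r + s)) := by positivity
  refine ⟨C, by linarith, fun N hN => ?_⟩
  have hNr : (1 : ℝ) ≤ N := by exact_mod_cast hN
  rcases Nat.lt_or_ge N N1 with hlt | hge
  · -- small `N`
    have hNN1 : (N : ℝ) ≤ N1 := by exact_mod_cast hlt.le
    refine ⟨N, hN, ?_, ?_, ?_⟩
    · exact le_self_pow₀ hNr (by omega)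
    · calc (N : ℝ) ^ r ≤ (N1 : ℝ) ^ r := pow_le_pow_left₀ (by positivity) hNN1 r
        _ ≤ C := by linarith
        _ ≤ C * N := le_mul_of_one_le_right (by linarith) hNr
    · have h1 : (_root_.VM.JN (r + s) r N : ℝ) ≤ (N : ℝ) ^ (2 * (r + s)) := by
        exact_mod_cast JN_le (r + s) r N
      have h2 : (N : ℝ) ^ (2 * (r + s)) ≤ (N1 : ℝ) ^ (2 * (r + s)) := pow_le_pow_left₀ (by positivity) hNN1 _
      have h3 : (1 : ℝ) ≤ (_root_.VM.JN s r (N / N + 1) : ℝ) := by
        exact_mod_cast JN_pos s r (N / N + 1) (Nat.le_add_left 1 _)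
      have h4 : (1 : ℝ) ≤ (N : ℝ) ^ r * (N : ℝ) ^ (2 * s + r * (r - 1) / 2) *
          (_root_.VM.JN s r (N / N + 1) : ℝ) :=
        one_le_mul_of_one_le_of_one_le (one_le_mul_of_one_le_of_one_le (one_le_pow₀ hNr) (one_le_pow₀ hNr)) h3
      calc (_root_.VM.JN (r + s) r N : ℝ) ≤ C := by linarith
        _ ≤ _ := le_mul_of_one_le_right (by linarith) h4
  · obtain ⟨P, hPc, hP, hsep⟩ := hC0 N (by omega)
    -- `P` is not empty
    have hPne : P.Nonempty := by
      obtain ⟨p, hp, -⟩ := hsep (fun i => ((i : ℕ) : ℤ) + 1) (fun i => ((i : ℕ) : ℤ) + 1)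
        (fun i => by have := i.2; omega) (fun i => by have := i.2; omega)
        (fun i j h => Fin.ext (by simpa using h)) (fun i j h => Fin.ext (by simpa using h))
      exact ⟨p, hp⟩
    let F : ℕ → ℕ := fun p => p ^ (2 * s) * (N ^ r * (r ^ r * p ^ (r * (r - 1) / 2)) * _root_.VM.JN s r (N / p + 1))
    obtain ⟨p, hp, hmax⟩ := P.exists_max_image F hPne
    obtain ⟨hpp, hrp, hNp, hpN⟩ := hP p hp
    set S := Finset.Ico (0 : ℤ) N with hS
    set Wt := W (tup r S) (vs r) (tup s S) (vs r) with hWt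
    -- the injective part
    have hinj : ((((tup r S ×ˢ tup r S) ×ˢ (tup s S ×ˢ tup s S)).filter
        (fun z => vs r z.1.1 + vs r z.2.1 = vs r z.1.2 + vs r z.2.2)).filter
          (fun z => Function.Injective z.1.1 ∧ Function.Injective z.1.2)).card ≤ C0 * F p := by
      have h1 : (((tup r S ×ˢ tup r S) ×ˢ (tup s S ×ˢ tup s S)).filter
          (fun z => vs r z.1.1 + vs r z.2.1 = vs r z.1.2 + vs r z.2.2)).filter
            (fun z => Function.Injective z.1.1 ∧ Function.Injective z.1.2) ⊆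
          P.biUnion fun p => (((((tup r S).filter (fun x => ∀ i k, i ≠ k → ¬ ((p : ℤ) ∣ x i - x k))) ×ˢ
            ((tup r S).filter (fun x => ∀ i k, i ≠ k → ¬ ((p : ℤ) ∣ x i - x k)))) ×ˢ
              (tup s S ×ˢ tup s S)).filter
              (fun z => vs r z.1.1 + vs r z.2.1 = vs r z.1.2 + vs r z.2.2)) := by
        intro z hz
        rw [mem_filter, mem_filter, mem_product, mem_product, mem_product] at hz
        have hb : ∀ x ∈ tup r S, ∀ i, 1 ≤ x i + 1 ∧ x i + 1 ≤ N := by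
          intro x hx i
          have h2 := Finset.mem_Ico.1 (Fintype.mem_piFinset.1 hx i)
          omega
        obtain ⟨q, hq, hq1, hq2⟩ := hsep (fun i => z.1.1 i + 1) (fun i => z.1.2 i + 1)
          (hb _ hz.1.1.1.1) (hb _ hz.1.1.1.2)
          (fun i j h => hz.2.1 (by simpa using h)) (fun i j h => hz.2.2 (by simpa using h))
        rw [mem_biUnion]
        refine ⟨q, hq, ?_⟩
        rw [mem_filter, mem_product, mem_product, mem_product, mem_filter, mem_filter]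
        refine ⟨⟨⟨⟨hz.1.1.1.1, fun i k hik h => ?_⟩, ⟨hz.1.1.1.2, fun i k hik h => ?_⟩⟩, hz.1.1.2⟩, hz.1.2⟩
        · exact hq1 i k hik (by rw [add_sub_add_right_eq_sub]; exact h)
        · exact hq2 i k hik (by rw [add_sub_add_right_eq_sub]; exact h)
      refine (Finset.card_le_card h1).trans (Finset.card_biUnion_le.trans ?_)
      calc _ ≤ ∑ q ∈ P, F p := Finset.sum_le_sum fun q hq => by
            obtain ⟨hqp, hrq, hNq, hqN⟩ := hP q hq
            exact (H2 N q hN hqp hrq hNq).trans (hmax q hq)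
        _ = P.card * F p := by rw [Finset.sum_const, smul_eq_mul]
        _ ≤ C0 * F p := Nat.mul_le_mul_right _ hPc
    have hsplit := asm_split r s S
    have hsplit' : (Wt : ℝ) ≤ C0 * F p + 2 * ∑ ij ∈ (univ : Finset (Fin r)).offDiag,
        (W4 ((tup r S).filter (fun x => x ij.1 = x ij.2)) (tup r S) (vs r) (tup s S) (vs r) : ℝ) := by
      have h1 := hsplit.trans (Nat.add_le_add_right hinj _)
      exact_mod_cast h1
    set w : ℝ := (Wt : ℝ) with hw
    have hw0 : 0 ≤ w := Nat.cast_nonneg _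
    have hcoin : K * ∑ ij ∈ (univ : Finset (Fin r)).offDiag,
        (W4 ((tup r S).filter (fun x => x ij.1 = x ij.2)) (tup r S) (vs r) (tup s S) (vs r) : ℝ) ≤
        (r : ℝ) ^ 2 * (w + K ^ (r + s) * √w) := by
      rw [Finset.mul_sum]
      refine (Finset.sum_le_sum fun ij hij => H1 S ij.1 ij.2 (mem_offDiag.1 hij).2.2 K hK0.le).trans ?_
      rw [Finset.sum_const, nsmul_eq_mul]
      refine mul_le_mul_of_nonneg_right ?_ (by positivity)
      have h2 : (univ : Finset (Fin r)).offDiag.card ≤ r ^ 2 := by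
        rw [offDiag_card, card_univ, Fintype.card_fin, pow_two]
        exact Nat.sub_le _ _
      exact_mod_cast h2
    have hcoin' : 2 * ∑ ij ∈ (univ : Finset (Fin r)).offDiag,
        (W4 ((tup r S).filter (fun x => x ij.1 = x ij.2)) (tup r S) (vs r) (tup s S) (vs r) : ℝ) ≤
        (w + K ^ (r + s) * √w) / 2 := by
      set Q := ∑ ij ∈ (univ : Finset (Fin r)).offDiag,
        (W4 ((tup r S).filter (fun x => x ij.1 = x ij.2)) (tup r S) (vs r) (tup s S) (vs r) : ℝ)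
      have hr2 : (0 : ℝ) < (r : ℝ) ^ 2 := by positivity
      have h1 : (r : ℝ) ^ 2 * (4 * Q) ≤ (r : ℝ) ^ 2 * (w + K ^ (r + s) * √w) := by
        calc (r : ℝ) ^ 2 * (4 * Q) = K * Q := by rw [hK]; ring
          _ ≤ _ := hcoin
      have h2 := le_of_mul_le_mul_left h1 hr2
      linarith
    have hamgm : K ^ (r + s) * √w ≤ w / 2 + K ^ (2 * (r + s)) / 2 := by
      have h1 : 0 ≤ (K ^ (r + s) - √w) ^ 2 := sq_nonneg _
      have h2 : √w ^ 2 = w := Real.sq_sqrt hw0
      have h3 : K ^ (2 * (r + s)) = (K ^ (r + s)) ^ 2 := by rw [← pow_mul, Nat.mul_comm]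
      rw [h3]
      nlinarith
    have hWle : w ≤ 4 * (C0 * F p) + K ^ (2 * (r + s)) := by linarith
    have hp1 : 1 ≤ p := hpp.one_lt.le
    have hpR : (1 : ℝ) ≤ p := by exact_mod_cast hp1
    refine ⟨p, hp1, by exact_mod_cast hNp, ?_, ?_⟩
    · calc (p : ℝ) ^ r ≤ C0 * N := by exact_mod_cast hpN
        _ ≤ C * N := mul_le_mul_of_nonneg_right (by linarith) (by positivity)
    · have h1 : (_root_.VM.JN (r + s) r N : ℝ) ≤ w := by
        rw [hw]
        exact_mod_cast H3 N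
      have h2 : (1 : ℝ) ≤ (_root_.VM.JN s r (N / p + 1) : ℝ) := by
        exact_mod_cast JN_pos s r (N / p + 1) (Nat.le_add_left 1 _)
      set G : ℝ := (N : ℝ) ^ r * (p : ℝ) ^ (2 * s + r * (r - 1) / 2) * (_root_.VM.JN s r (N / p + 1) : ℝ)
        with hG
      have h3 : (1 : ℝ) ≤ G :=
        one_le_mul_of_one_le_of_one_le (one_le_mul_of_one_le_of_one_le (one_le_pow₀ hNr) (one_le_pow₀ hpR)) h2
      have h4 : (F p : ℝ) = (r : ℝ) ^ r * G := by
        rw [hG]
        simp only [F]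
        push_cast
        rw [pow_add]
        ring
      calc (_root_.VM.JN (r + s) r N : ℝ) ≤ 4 * (C0 * F p) + K ^ (2 * (r + s)) := h1.trans hWle
        _ = (4 * C0 * (r : ℝ) ^ r) * G + K ^ (2 * (r + s)) * 1 := by rw [h4]; ring
        _ ≤ (4 * C0 * (r : ℝ) ^ r) * G + K ^ (2 * (r + s)) * G := by
            have := mul_le_mul_of_nonneg_left h3 hCb
            linarith
        _ = (4 * C0 * (r : ℝ) ^ r + K ^ (2 * (r + s))) * G := by ring
        _ ≤ C * G := mul_le_mul_of_nonneg_right (by linarith) (by linarith)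

end Pool.Agent.Lib.MP_570bef_ntV.VM
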