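import Mathlib

/-!
# Vinogradov's mean value theorem: definitions

`vs r x` is the vector of the power sums `∑ x_i ^ j`, `1 ≤ j ≤ r`, of a tuple of integers; `J r s S` is the number of solutions of
`∑ x_i ^ j = ∑ y_i ^ j` (`1 ≤ j ≤ r`) with `x, y` tuples of length `s` from the finite set `S`.
-/

namespace Pool.Agent.Lib.MP_570bef_ntV.VM

open Finset

/-- the vector of the power sums of a tuple of integers -/
def vs (r : ℕ) {ι : Type*} [Fintype ι] (x : ι → ℤ) : Fin r → ℤ := fun j => ∑ i, x i ^ ((j : ℕ) + 1)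

/-- the tuples of length `s` from `S` -/
def tup (s : ℕ) (S : Finset ℤ) : Finset (Fin s → ℤ) := Fintype.piFinset (fun _ => S)

/-- the number of solutions of `F x + G u = F y + G v`, `x, y ∈ T`, `u, v ∈ A` -/
def W {τ α V : Type*} [DecidableEq V] [Add V] (T : Finset τ) (F : τ → V) (A : Finset α) (G : α → V) : ℕ :=
  (((T ×ˢ T) ×ˢ (A ×ˢ A)).filter (fun z => F z.1.1 + G z.2.1 = F z.1.2 + G z.2.2)).card

/-- the number of solutions of Vinogradov's system -/
def J (r s : ℕ) (S : Finset ℤ) : ℕ := ((tup s S ×ˢ tup s S).filter (fun z => vs r z.1 = vs r z.2)).card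

end Pool.Agent.Lib.MP_570bef_ntV.VM
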