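import Pool.Agent.Lib.MP_570bef_ntV.VM.Defs

/-!
# Counting solutions by characters of a finite abelian group
-/

set_option linter.unusedSectionVars false

namespace Pool.Agent.Lib.MP_570bef_ntV.VM

open Finset

variable {V : Type} [AddCommGroup V] [Fintype V] [DecidableEq V] {τ α : Type*}

/-- the exponential sum -/
noncomputable def S1 (T : Finset τ) (F : τ → V) (ψ : AddChar V ℂ) : ℂ := ∑ x ∈ T, ψ (F x)

theorem four_general {β : Type*} (B : Finset β) (D : β → V) :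
    ((Fintype.card V : ℂ)) * ((B.filter (fun z => D z = 0)).card : ℂ) = ∑ ψ : AddChar V ℂ, ∑ z ∈ B, ψ (D z) := by
  rw [sum_comm]
  simp only [AddChar.sum_apply_eq_ite]
  rw [← sum_filter, sum_const, nsmul_eq_mul, mul_comm]

/-- the mixed count -/
def W4 (T1 T2 : Finset τ) (F : τ → V) (A : Finset α) (G : α → V) : ℕ :=
  (((T1 ×ˢ T2) ×ˢ (A ×ˢ A)).filter (fun z => F z.1.1 + G z.2.1 = F z.1.2 + G z.2.2)).card

theorem W4_four (T1 T2 : Finset τ) (F : τ → V) (A : Finset α) (G : α → V) :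
    ((Fintype.card V : ℂ)) * (W4 T1 T2 F A G : ℂ) =
      ∑ ψ : AddChar V ℂ, S1 T1 F ψ * (starRingEnd ℂ) (S1 T2 F ψ) * (S1 A G ψ * (starRingEnd ℂ) (S1 A G ψ)) := by
  have h1 : W4 T1 T2 F A G = (((T1 ×ˢ T2) ×ˢ (A ×ˢ A)).filter
      (fun z => F z.1.1 + G z.2.1 - (F z.1.2 + G z.2.2) = 0)).card := by
    unfold W4
    congr 1
    ext z
    simp only [mem_filter, sub_eq_zero]
  rw [h1, four_general]
  refine sum_congr rfl fun ψ _ => ?_
  unfold S1
  simp only [map_sum]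
  rw [sum_mul_sum, sum_mul_sum, ← sum_product', ← sum_product', sum_mul_sum, ← sum_product']
  refine sum_congr rfl fun z _ => ?_
  simp only [sub_eq_add_neg, AddChar.map_add_eq_mul, AddChar.map_neg_eq_conj]
  rw [map_mul]
  ring

theorem W_eq_W4 (T : Finset τ) (F : τ → V) (A : Finset α) (G : α → V) : W T F A G = W4 T T F A G := rfl

theorem W_four (T : Finset τ) (F : τ → V) (A : Finset α) (G : α → V) :
    (Fintype.card V : ℝ) * (W T F A G : ℝ) = ∑ ψ : AddChar V ℂ, ‖S1 T F ψ‖ ^ 2 * ‖S1 A G ψ‖ ^ 2 := by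
  have h := W4_four T T F A G
  rw [← W_eq_W4] at h
  have h2 : ((((Fintype.card V : ℝ) * (W T F A G : ℝ)) : ℝ) : ℂ) =
      ((∑ ψ : AddChar V ℂ, ‖S1 T F ψ‖ ^ 2 * ‖S1 A G ψ‖ ^ 2 : ℝ) : ℂ) := by
    push_cast
    rw [h]
    refine sum_congr rfl fun ψ _ => ?_
    rw [Complex.mul_conj, Complex.mul_conj, Complex.normSq_eq_norm_sq, Complex.normSq_eq_norm_sq]
    push_cast
    rfl
  exact_mod_cast h2

theorem W4_le (T1 T2 : Finset τ) (F : τ → V) (A : Finset α) (G : α → V) :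
    (Fintype.card V : ℝ) * (W4 T1 T2 F A G : ℝ) ≤
      ∑ ψ : AddChar V ℂ, ‖S1 T1 F ψ‖ * ‖S1 T2 F ψ‖ * ‖S1 A G ψ‖ ^ 2 := by
  have h := W4_four T1 T2 F A G
  have h1 : (Fintype.card V : ℝ) * (W4 T1 T2 F A G : ℝ) = ‖((Fintype.card V : ℂ)) * (W4 T1 T2 F A G : ℂ)‖ := by
    rw [norm_mul, Complex.norm_natCast, Complex.norm_natCast]
  rw [h1, h]
  refine (norm_sum_le _ _).trans (sum_le_sum fun ψ _ => le_of_eq ?_)
  rw [norm_mul, norm_mul, norm_mul, Complex.norm_conj, Complex.norm_conj, pow_two]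

theorem map_sum_prod (ψ : AddChar V ℂ) {ι : Type*} (I : Finset ι) (f : ι → V) :
    ψ (∑ i ∈ I, f i) = ∏ i ∈ I, ψ (f i) := by
  classical
  induction I using Finset.induction_on with
  | empty => simp
  | insert a I ha ih => rw [sum_insert ha, prod_insert ha, AddChar.map_add_eq_mul, ih]

/-- the exponential sum over tuples -/
theorem S1_tup (s : ℕ) (S : Finset ℤ) (ν : ℤ → V) (ψ : AddChar V ℂ) :
    S1 (tup s S) (fun x => ∑ i, ν (x i)) ψ = (S1 S ν ψ) ^ s := by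
  unfold S1 tup
  have h1 : ∀ x : Fin s → ℤ, ψ (∑ i, ν (x i)) = ∏ i, ψ (ν (x i)) := fun x => map_sum_prod ψ _ _
  simp only [h1]
  rw [← prod_univ_sum (fun _ => S) (fun _ x => ψ (ν x)), prod_const, card_univ, Fintype.card_fin]

/-- splitting into classes -/
theorem W_split_fin (s p : ℕ) (hs : 1 ≤ s) (hp : 1 ≤ p) (T : Finset τ) (F : τ → V) (S : Finset ℤ) (ν : ℤ → V) :
    (W T F (tup s S) (fun x => ∑ i, ν (x i)) : ℝ) ≤ (p : ℝ) ^ (2 * s - 1) *
      ∑ a ∈ range p, (W T F (tup s (S.filter (fun x => x % (p : ℤ) = (a : ℤ)))) (fun x => ∑ i, ν (x i)) : ℝ) := by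
  have hV : (0 : ℝ) < (Fintype.card V : ℝ) := by
    have : 0 < Fintype.card V := Fintype.card_pos
    exact_mod_cast this
  refine le_of_mul_le_mul_left ?_ hV
  rw [mul_left_comm, mul_sum]
  simp only [W_four, S1_tup, norm_pow]
  rw [sum_comm, mul_sum]
  refine sum_le_sum fun ψ _ => ?_
  rw [← mul_sum, mul_left_comm]
  refine mul_le_mul_of_nonneg_left ?_ (by positivity)
  have hdec : S1 S ν ψ = ∑ a ∈ range p, S1 (S.filter (fun x => x % (p : ℤ) = (a : ℤ))) ν ψ := by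
    unfold S1
    rw [← sum_fiberwise_of_maps_to (s := S) (t := range p) (g := fun x : ℤ => (x % (p : ℤ)).toNat)]
    · refine sum_congr rfl fun a ha => ?_
      refine sum_congr ?_ fun _ _ => rfl
      ext x
      have h0 : 0 ≤ x % (p : ℤ) := Int.emod_nonneg _ (by omega)
      simp only [mem_filter]
      constructor
      · rintro ⟨h1, h2⟩
        exact ⟨h1, by omega⟩
      · rintro ⟨h1, h2⟩
        exact ⟨h1, by omega⟩
    · intro x _
      have h0 : 0 ≤ x % (p : ℤ) := Int.emod_nonneg _ (by omega)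
      have h1 : x % (p : ℤ) < p := Int.emod_lt_of_pos _ (by omega)
      rw [mem_range]
      omega
  have h1 : ‖S1 S ν ψ‖ ≤ ∑ a ∈ range p, ‖S1 (S.filter (fun x => x % (p : ℤ) = (a : ℤ))) ν ψ‖ := by
    rw [hdec]
    exact norm_sum_le _ _
  have hp0 : (0 : ℝ) < (p : ℝ) := by exact_mod_cast hp
  have h2 := pow_sum_div_card_le_sum_pow (s := range p)
    (f := fun a => ‖S1 (S.filter (fun x => x % (p : ℤ) = (a : ℤ))) ν ψ‖) (fun a _ => norm_nonneg _) (2 * s - 1)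
  rw [card_range, div_le_iff₀ (by positivity), Nat.sub_add_cancel (by omega)] at h2
  calc (‖S1 S ν ψ‖ ^ s) ^ 2 = ‖S1 S ν ψ‖ ^ (2 * s) := by rw [← pow_mul, Nat.mul_comm]
    _ ≤ (∑ a ∈ range p, ‖S1 (S.filter (fun x => x % (p : ℤ) = (a : ℤ))) ν ψ‖) ^ (2 * s) :=
        pow_le_pow_left₀ (norm_nonneg _) h1 _
    _ ≤ (∑ a ∈ range p, ‖S1 (S.filter (fun x => x % (p : ℤ) = (a : ℤ))) ν ψ‖ ^ (2 * s)) * (p : ℝ) ^ (2 * s - 1) := h2
    _ = _ := by
        rw [mul_comm]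
        congr 1
        refine sum_congr rfl fun a _ => ?_
        rw [← pow_mul, Nat.mul_comm s 2]

/-- a tuple with two equal entries -/
theorem S1_coinc (r : ℕ) (S : Finset ℤ) (ν : ℤ → V) (ψ : AddChar V ℂ) (i j : Fin r) (hij : i ≠ j) :
    S1 ((tup r S).filter (fun x => x i = x j)) (fun x => ∑ k, ν (x k)) ψ =
      S1 S (fun x => 2 • ν x) ψ * (S1 S ν ψ) ^ (r - 2) := by
  have h1 : ∀ x : Fin r → ℤ, ψ (∑ k, ν (x k)) = ∏ k, ψ (ν (x k)) := fun x => map_sum_prod ψ _ _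
  unfold S1
  simp only [h1]
  rw [sum_mul]
  have h2 : ∀ x ∈ (tup r S).filter (fun x => x i = x j), x i ∈ S := by
    intro x hx
    exact Fintype.mem_piFinset.1 (mem_filter.1 hx).1 i
  rw [← sum_fiberwise_of_maps_to h2]
  refine sum_congr rfl fun t ht => ?_
  have h3 : ((tup r S).filter (fun x => x i = x j)).filter (fun x => x i = t) =
      Fintype.piFinset (fun k => if k = i ∨ k = j then ({t} : Finset ℤ) else S) := by
    ext x
    simp only [mem_filter, tup, Fintype.mem_piFinset]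
    constructor
    · rintro ⟨⟨hx, hxx⟩, hxt⟩ k
      by_cases hk : k = i ∨ k = j
      · rw [if_pos hk, mem_singleton]
        rcases hk with rfl | rfl
        · exact hxt
        · rw [← hxx, hxt]
      · rw [if_neg hk]
        exact hx k
    · intro hx
      have hi := hx i
      have hj := hx j
      rw [if_pos (Or.inl rfl), mem_singleton] at hi
      rw [if_pos (Or.inr rfl), mem_singleton] at hj
      refine ⟨⟨fun k => ?_, by rw [hi, hj]⟩, hi⟩
      have hk := hx k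
      by_cases hk' : k = i ∨ k = j
      · rw [if_pos hk', mem_singleton] at hk
        rw [hk]
        exact ht
      · rw [if_neg hk'] at hk
        exact hk
  rw [h3, ← prod_univ_sum (fun k => if k = i ∨ k = j then ({t} : Finset ℤ) else S) (fun _ x => ψ (ν x))]
  have h4 : ∀ k : Fin r, ∑ x ∈ (if k = i ∨ k = j then ({t} : Finset ℤ) else S), ψ (ν x) =
      if k = i ∨ k = j then ψ (ν t) else ∑ x ∈ S, ψ (ν x) := by
    intro k
    split_ifs <;> simp
  simp only [h4]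
  rw [prod_ite, prod_const, prod_const]
  have h5 : (univ.filter (fun k : Fin r => k = i ∨ k = j)).card = 2 := by
    have : univ.filter (fun k : Fin r => k = i ∨ k = j) = {i, j} := by
      ext k
      simp
    rw [this, card_pair hij]
  have h6 : (univ.filter (fun k : Fin r => ¬ (k = i ∨ k = j))).card = r - 2 := by
    have := card_filter_add_card_filter_not (s := (univ : Finset (Fin r))) (fun k => k = i ∨ k = j)
    rw [h5, card_univ, Fintype.card_fin] at this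
    omega
  rw [h5, h6, two_nsmul, AddChar.map_add_eq_mul, pow_two]

theorem pointwise (K : ℝ) (hK : 0 ≤ K) (n : ℕ) (hn : 1 ≤ n) (a b : ℝ) (ha : 0 ≤ a) (hb : 0 ≤ b) :
    K * (a * b ^ (2 * (n - 1))) ≤ b ^ (2 * n) + K ^ n * a ^ n := by
  obtain ⟨m, rfl⟩ := Nat.exists_eq_add_of_le' hn
  rw [Nat.add_sub_cancel]
  have hKa : 0 ≤ K * a := mul_nonneg hK ha
  rcases le_total (K * a) (b ^ 2) with h | h
  · have h1 : K * (a * b ^ (2 * m)) ≤ b ^ (2 * (m + 1)) := by
      calc K * (a * b ^ (2 * m)) = (K * a) * b ^ (2 * m) := by ring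
        _ ≤ b ^ 2 * b ^ (2 * m) := mul_le_mul_of_nonneg_right h (by positivity)
        _ = b ^ (2 * (m + 1)) := by ring
    have : 0 ≤ K ^ (m + 1) * a ^ (m + 1) := by positivity
    linarith
  · have h1 : K * (a * b ^ (2 * m)) ≤ K ^ (m + 1) * a ^ (m + 1) := by
      calc K * (a * b ^ (2 * m)) = (K * a) * (b ^ 2) ^ m := by ring
        _ ≤ (K * a) * (K * a) ^ m := mul_le_mul_of_nonneg_left (pow_le_pow_left₀ (by positivity) h m) hKa
        _ = K ^ (m + 1) * a ^ (m + 1) := by ring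
    have : 0 ≤ b ^ (2 * (m + 1)) := by positivity
    linarith

/-- few solutions have `x i = x j` -/
theorem coinc_fin (r s : ℕ) (S : Finset ℤ) (ν : ℤ → V) (h2inj : ∀ v : V, 2 • v = 0 → v = 0) (i j : Fin r)
    (hij : i ≠ j) (K : ℝ) (hK : 0 ≤ K) :
    K * (W4 ((tup r S).filter (fun x => x i = x j)) (tup r S) (fun x => ∑ k, ν (x k)) (tup s S)
      (fun x => ∑ k, ν (x k)) : ℝ) ≤
      (W (tup r S) (fun x => ∑ k, ν (x k)) (tup s S) (fun x => ∑ k, ν (x k)) : ℝ) +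
      K ^ (r + s) * √(W (tup r S) (fun x => ∑ k, ν (x k)) (tup s S) (fun x => ∑ k, ν (x k)) : ℝ) := by
  have hr : 2 ≤ r := by
    have := i.2
    have := j.2
    have : (i : ℕ) ≠ j := fun h => hij (Fin.ext h)
    omega
  have hV : (0 : ℝ) < (Fintype.card V : ℝ) := by
    have : 0 < Fintype.card V := Fintype.card_pos
    exact_mod_cast this
  set Jn : ℝ := (W (tup r S) (fun x => ∑ k, ν (x k)) (tup s S) (fun x => ∑ k, ν (x k)) : ℝ) with hJn
  have hJ : (Fintype.card V : ℝ) * Jn = ∑ ψ : AddChar V ℂ, ‖S1 S ν ψ‖ ^ (2 * (r + s)) := by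
    rw [hJn, W_four]
    refine sum_congr rfl fun ψ _ => ?_
    rw [S1_tup, S1_tup, norm_pow, norm_pow]
    ring
  have hJ2 : (Fintype.card V : ℝ) * Jn = ∑ ψ : AddChar V ℂ, ‖S1 S (fun x => 2 • ν x) ψ‖ ^ (2 * (r + s)) := by
    have h1 : Jn = (W (tup r S) (fun x => ∑ k, 2 • ν (x k)) (tup s S) (fun x => ∑ k, 2 • ν (x k)) : ℝ) := by
      rw [hJn]
      unfold W
      congr 2
      ext z
      simp only [mem_filter]
      refine and_congr_right fun _ => ?_
      rw [← smul_sum, ← smul_sum, ← smul_sum, ← smul_sum, ← smul_add, ← smul_add]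
      constructor
      · intro h
        rw [h]
      · intro h
        rw [← sub_eq_zero, ← smul_sub] at h
        exact sub_eq_zero.1 (h2inj _ h)
    rw [h1, W_four]
    refine sum_congr rfl fun ψ _ => ?_
    rw [S1_tup r S (fun x => 2 • ν x), S1_tup s S (fun x => 2 • ν x), norm_pow, norm_pow]
    ring
  have h1 := W4_le ((tup r S).filter (fun x => x i = x j)) (tup r S) (fun x => ∑ k, ν (x k)) (tup s S)
    (fun x => ∑ k, ν (x k))
  have h2 : ∑ ψ : AddChar V ℂ, ‖S1 ((tup r S).filter (fun x => x i = x j)) (fun x => ∑ k, ν (x k)) ψ‖ *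
      ‖S1 (tup r S) (fun x => ∑ k, ν (x k)) ψ‖ * ‖S1 (tup s S) (fun x => ∑ k, ν (x k)) ψ‖ ^ 2 =
      ∑ ψ : AddChar V ℂ, ‖S1 S (fun x => 2 • ν x) ψ‖ * ‖S1 S ν ψ‖ ^ (2 * (r + s - 1)) := by
    refine sum_congr rfl fun ψ _ => ?_
    rw [S1_coinc r S ν ψ i j hij, S1_tup, S1_tup, norm_mul, norm_pow, norm_pow, norm_pow]
    have e : 2 * (r + s - 1) = (r - 2) + r + s * 2 := by omega
    rw [e, pow_add, pow_add, ← pow_mul]
    ring
  rw [h2] at h1
  have h3 : (Fintype.card V : ℝ) * (K * (W4 ((tup r S).filter (fun x => x i = x j)) (tup r S)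
      (fun x => ∑ k, ν (x k)) (tup s S) (fun x => ∑ k, ν (x k)) : ℝ)) ≤
      (Fintype.card V : ℝ) * Jn + K ^ (r + s) * ∑ ψ : AddChar V ℂ, ‖S1 S (fun x => 2 • ν x) ψ‖ ^ (r + s) := by
    calc _ = K * ((Fintype.card V : ℝ) * (W4 ((tup r S).filter (fun x => x i = x j)) (tup r S)
      (fun x => ∑ k, ν (x k)) (tup s S) (fun x => ∑ k, ν (x k)) : ℝ)) := by ring
      _ ≤ K * ∑ ψ : AddChar V ℂ, ‖S1 S (fun x => 2 • ν x) ψ‖ * ‖S1 S ν ψ‖ ^ (2 * (r + s - 1)) :=
          mul_le_mul_of_nonneg_left h1 hK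
      _ = ∑ ψ : AddChar V ℂ, K * (‖S1 S (fun x => 2 • ν x) ψ‖ * ‖S1 S ν ψ‖ ^ (2 * (r + s - 1))) := by
          rw [mul_sum]
      _ ≤ ∑ ψ : AddChar V ℂ, (‖S1 S ν ψ‖ ^ (2 * (r + s)) + K ^ (r + s) * ‖S1 S (fun x => 2 • ν x) ψ‖ ^ (r + s)) :=
          sum_le_sum fun ψ _ => pointwise K hK (r + s) (by omega) _ _ (norm_nonneg _) (norm_nonneg _)
      _ = _ := by rw [sum_add_distrib, ← hJ, ← mul_sum]
  have h4 : ∑ ψ : AddChar V ℂ, ‖S1 S (fun x => 2 • ν x) ψ‖ ^ (r + s) ≤ (Fintype.card V : ℝ) * √Jn := by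
    have h5 := sum_mul_sq_le_sq_mul_sq (univ : Finset (AddChar V ℂ)) (fun _ => (1 : ℝ))
      (fun ψ => ‖S1 S (fun x => 2 • ν x) ψ‖ ^ (r + s))
    have hcard : (Fintype.card (AddChar V ℂ) : ℝ) = (Fintype.card V : ℝ) := by
      rw [AddChar.card_eq]
    simp only [one_mul, one_pow, sum_const, card_univ, nsmul_eq_mul, mul_one] at h5
    rw [hcard] at h5
    have h6 : ∑ ψ : AddChar V ℂ, (‖S1 S (fun x => 2 • ν x) ψ‖ ^ (r + s)) ^ 2 = (Fintype.card V : ℝ) * Jn := by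
      rw [hJ2]
      refine sum_congr rfl fun ψ _ => ?_
      rw [← pow_mul, Nat.mul_comm]
    rw [h6] at h5
    have h7 : (∑ ψ : AddChar V ℂ, ‖S1 S (fun x => 2 • ν x) ψ‖ ^ (r + s)) ^ 2 ≤ ((Fintype.card V : ℝ) * √Jn) ^ 2 := by
      rw [mul_pow, Real.sq_sqrt (by rw [hJn]; positivity)]
      refine h5.trans (le_of_eq ?_)
      ring
    exact le_of_sq_le_sq h7 (by positivity)
  refine le_of_mul_le_mul_left ?_ hV
  refine h3.trans ?_
  rw [mul_add]
  have h8 : K ^ (r + s) * ∑ ψ : AddChar V ℂ, ‖S1 S (fun x => 2 • ν x) ψ‖ ^ (r + s) ≤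
      K ^ (r + s) * ((Fintype.card V : ℝ) * √Jn) := mul_le_mul_of_nonneg_left h4 (by positivity)
  have e : K ^ (r + s) * ((Fintype.card V : ℝ) * √Jn) = (Fintype.card V : ℝ) * (K ^ (r + s) * √Jn) := by ring
  linarith

end Pool.Agent.Lib.MP_570bef_ntV.VM
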